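import Pool.Agent.Lib.MP_832176_co.Core

namespace NLegged

/-- There is a trade with legs indexed by `ZMod N`, strength `t`, block size `k`, on a set of
`f` points. -/
def Ex (N t k f : ℕ) : Prop :=
  ∃ (X : Type) (_ : Fintype X) (_ : DecidableEq X) (T : ZMod N → Multiset (Finset X)),
    Str t k T ∧ Fintype.card X = f

variable {X Y : Type} [DecidableEq X] [DecidableEq Y]

lemma deg_map {L : Multiset (Finset X)} {g : Finset X → Finset Y} {S : Finset Y}
    {S' : Finset X} (h : ∀ B, S ⊆ g B ↔ S' ⊆ B) : deg (L.map g) S = deg L S' := by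
  induction L using Multiset.induction_on with
  | empty => simp
  | cons B L ih =>
    rw [Multiset.map_cons, deg_cons, deg_cons, ih]
    by_cases hB : S' ⊆ B
    · rw [if_pos hB, if_pos ((h B).2 hB)]
    · rw [if_neg hB, if_neg (fun hc => hB ((h B).1 hc))]

lemma Str.map {ι : Type} {t k k' : ℕ} {T : ι → Multiset (Finset X)} (h : Str t k T)
    (g : Finset X → Finset Y) (hg : Function.Injective g)
    (hk : ∀ B : Finset X, B.card = k → (g B).card = k')
    (r : Finset Y → Finset X) (hr : ∀ S, (r S).card ≤ S.card)
    (hgr : ∀ S B, S ⊆ g B ↔ r S ⊆ B) : Str t k' (fun i => (T i).map g) := by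
  refine ⟨?_, ?_, ?_, ?_⟩
  · intro i hi
    exact h.ne i (Multiset.map_eq_zero.1 hi)
  · intro i B hB
    obtain ⟨A, hA, rfl⟩ := Multiset.mem_map.1 hB
    exact hk A (h.blk i A hA)
  · intro i j hij B hB hB'
    obtain ⟨A, hA, rfl⟩ := Multiset.mem_map.1 hB
    obtain ⟨A', hA', h'⟩ := Multiset.mem_map.1 hB'
    rw [hg h'] at hA'
    exact h.dis i j hij A hA hA'
  · intro i j S hS
    rw [deg_map (hgr S), deg_map (hgr S)]
    exact h.bal i j _ ((hr S).trans hS)

/-- Adding a common point to all blocks. -/
lemma Ex.add_point {N t k f : ℕ} (h : Ex N t k f) : Ex N t (k + 1) (f + 1) := by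
  obtain ⟨X, iF, iD, T, hT, hc⟩ := h
  refine ⟨Option X, inferInstance, inferInstance,
    fun i => (T i).map (fun B => Finset.insertNone B), ?_, ?_⟩
  · refine hT.map _ Finset.insertNone.injective ?_ (fun S => Finset.eraseNone S) ?_ ?_
    · intro B hB
      rw [Finset.card_insertNone, hB]
    · intro S
      have : (Finset.eraseNone S).map Function.Embedding.some ⊆ S := by
        intro x hx
        obtain ⟨y, hy, rfl⟩ := Finset.mem_map.1 hx
        exact Finset.mem_eraseNone.1 hy
      have := Finset.card_le_card this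
      rwa [Finset.card_map] at this
    · intro S B
      constructor
      · intro hS x hx
        have := hS (Finset.mem_eraseNone.1 hx)
        simpa using this
      · intro hS x hx
        cases x with
        | none => simp
        | some y =>
          have : y ∈ Finset.eraseNone S := Finset.mem_eraseNone.2 hx
          simpa using hS this
  · rw [Fintype.card_option, hc]

lemma Ex.add_points {N t k f : ℕ} (h : Ex N t k f) (c : ℕ) : Ex N t (k + c) (f + c) := by
  induction c with
  | zero => exact h
  | succ c ih => exact ih.add_point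

/-- The degree as an additive map. -/
def degHom (S : Finset X) : Multiset (Finset X) →+ ℕ where
  toFun L := deg L S
  map_zero' := deg_zero S
  map_add' L M := deg_add L M S

lemma deg_sum {ι : Type} (s : Finset ι) (L : ι → Multiset (Finset X)) (S : Finset X) :
    deg (∑ i ∈ s, L i) S = ∑ i ∈ s, deg (L i) S :=
  map_sum (degHom S) L s

omit [DecidableEq X] [DecidableEq Y] in
lemma subset_disjSum_iff (S : Finset (X ⊕ Y)) (A : Finset X) (B : Finset Y) :
    S ⊆ A.disjSum B ↔ S.toLeft ⊆ A ∧ S.toRight ⊆ B := by
  constructor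
  · intro h
    constructor
    · intro x hx
      have := h (Finset.mem_toLeft.1 hx)
      simpa using this
    · intro y hy
      have := h (Finset.mem_toRight.1 hy)
      simpa using this
  · rintro ⟨h1, h2⟩ z hz
    cases z with
    | inl x => simpa using h1 (Finset.mem_toLeft.2 hz)
    | inr y => simpa using h2 (Finset.mem_toRight.2 hz)

/-- all unions of a block of `M` and a block of `L`, on disjoint point sets -/
def prodLeg (M : Multiset (Finset X)) (L : Multiset (Finset Y)) :
    Multiset (Finset (X ⊕ Y)) :=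
  (M ×ˢ L).map (fun q => q.1.disjSum q.2)

omit [DecidableEq X] [DecidableEq Y] in
lemma prodLeg_cons (A : Finset X) (M : Multiset (Finset X)) (L : Multiset (Finset Y)) :
    prodLeg (A ::ₘ M) L = L.map (fun B => A.disjSum B) + prodLeg M L := by
  unfold prodLeg
  rw [Multiset.cons_product, Multiset.map_add, Multiset.map_map]
  rfl

lemma deg_map_disjSum (A : Finset X) (L : Multiset (Finset Y)) (S : Finset (X ⊕ Y)) :
    deg (L.map (fun B => A.disjSum B)) S = if S.toLeft ⊆ A then deg L S.toRight else 0 := by
  by_cases h : S.toLeft ⊆ A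
  · rw [if_pos h]
    apply deg_map
    intro B
    rw [subset_disjSum_iff]
    tauto
  · rw [if_neg h]
    unfold deg
    rw [Multiset.card_eq_zero, Multiset.filter_eq_nil]
    intro C hC
    obtain ⟨B, _, rfl⟩ := Multiset.mem_map.1 hC
    rw [subset_disjSum_iff]
    tauto

lemma deg_prodLeg (M : Multiset (Finset X)) (L : Multiset (Finset Y)) (S : Finset (X ⊕ Y)) :
    deg (prodLeg M L) S = deg M S.toLeft * deg L S.toRight := by
  induction M using Multiset.induction_on with
  | empty => simp [prodLeg, deg]
  | cons A M ih =>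
    rw [prodLeg_cons, deg_add, ih, deg_map_disjSum, deg_cons, add_mul]
    congr 1
    by_cases h : S.toLeft ⊆ A
    · simp [h]
    · simp [h]

omit [DecidableEq X] [DecidableEq Y] in
lemma mem_prodLeg {M : Multiset (Finset X)} {L : Multiset (Finset Y)} {C : Finset (X ⊕ Y)} :
    C ∈ prodLeg M L ↔ ∃ A ∈ M, ∃ B ∈ L, C = A.disjSum B := by
  unfold prodLeg
  rw [Multiset.mem_map]
  constructor
  · rintro ⟨⟨A, B⟩, h, rfl⟩
    obtain ⟨h1, h2⟩ := Multiset.mem_product.1 h
    exact ⟨A, h1, B, h2, rfl⟩
  · rintro ⟨A, h1, B, h2, rfl⟩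
    exact ⟨(A, B), Multiset.mem_product.2 ⟨h1, h2⟩, rfl⟩

omit [DecidableEq X] [DecidableEq Y] in
lemma disjSum_inj {A A' : Finset X} {B B' : Finset Y} (h : A.disjSum B = A'.disjSum B') :
    A = A' ∧ B = B' := by
  constructor
  · ext x
    have : Sum.inl x ∈ A.disjSum B ↔ Sum.inl x ∈ A'.disjSum B' := by rw [h]
    simpa using this
  · ext y
    have : Sum.inr y ∈ A.disjSum B ↔ Sum.inr y ∈ A'.disjSum B' := by rw [h]
    simpa using this

/-- The product of two trades. -/
lemma Ex.prod {N t s k k' f f' : ℕ} [NeZero N] (h : Ex N t k f) (h' : Ex N s k' f') :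
    Ex N (t + s + 1) (k + k') (f + f') := by
  obtain ⟨X, iF, iD, M, hM, hc⟩ := h
  obtain ⟨Y, iF', iD', L, hL, hc'⟩ := h'
  refine ⟨X ⊕ Y, inferInstance, inferInstance,
    fun i => ∑ p : ZMod N, prodLeg (M p) (L (i - p)), ⟨?_, ?_, ?_, ?_⟩, ?_⟩
  · intro i hi
    obtain ⟨A, hA⟩ := Multiset.exists_mem_of_ne_zero (hM.ne 0)
    obtain ⟨B, hB⟩ := Multiset.exists_mem_of_ne_zero (hL.ne i)
    have : A.disjSum B ∈ ∑ p : ZMod N, prodLeg (M p) (L (i - p)) := by
      rw [Multiset.mem_sum]
      exact ⟨0, Finset.mem_univ _, mem_prodLeg.2 ⟨A, hA, B, by rwa [sub_zero], rfl⟩⟩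
    have hi' : ∑ p : ZMod N, prodLeg (M p) (L (i - p)) = 0 := hi
    rw [hi'] at this
    simp at this
  · intro i C hC
    rw [Multiset.mem_sum] at hC
    obtain ⟨p, _, hp⟩ := hC
    obtain ⟨A, hA, B, hB, rfl⟩ := mem_prodLeg.1 hp
    rw [Finset.card_disjSum, hM.blk _ A hA, hL.blk _ B hB]
  · intro i j hij C hC hC'
    rw [Multiset.mem_sum] at hC hC'
    obtain ⟨p, _, hp⟩ := hC
    obtain ⟨p', _, hp'⟩ := hC'
    obtain ⟨A, hA, B, hB, rfl⟩ := mem_prodLeg.1 hp
    obtain ⟨A', hA', B', hB', h⟩ := mem_prodLeg.1 hp'
    obtain ⟨rfl, rfl⟩ := disjSum_inj h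
    by_cases hpp : p = p'
    · subst hpp
      exact hL.dis (i - p) (j - p) (fun h => hij (sub_left_injective h)) B hB hB'
    · exact hM.dis p p' hpp A hA hA'
  · intro i j S hS
    rw [deg_sum, deg_sum]
    simp only [deg_prodLeg]
    have hcard : S.toLeft.card + S.toRight.card = S.card := Finset.card_toLeft_add_card_toRight
    by_cases hl : S.toLeft.card ≤ t
    · have h1 : ∀ i : ZMod N, ∑ p : ZMod N, deg (M p) S.toLeft * deg (L (i - p)) S.toRight
          = deg (M 0) S.toLeft * ∑ q : ZMod N, deg (L q) S.toRight := by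
        intro i
        rw [Finset.mul_sum, ← Equiv.sum_comp (Equiv.subLeft i)
          (fun q => deg (M 0) S.toLeft * deg (L q) S.toRight)]
        apply Finset.sum_congr rfl
        intro p _
        rw [hM.bal p 0 _ hl]
        rfl
      rw [h1 i, h1 j]
    · have hr : S.toRight.card ≤ s := by omega
      apply Finset.sum_congr rfl
      intro p _
      rw [hL.bal (i - p) (j - p) _ hr]
  · rw [Fintype.card_sum, hc, hc']

/-- Strength 0, complements of the points. -/
lemma ex_zero {N : ℕ} [NeZero N] : Ex N 0 (N - 1) N := by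
  refine ⟨ZMod N, inferInstance, inferInstance, fun i => {Finset.univ.erase i},
    ⟨?_, ?_, ?_, ?_⟩, ZMod.card N⟩
  · intro i; simp
  · intro i B hB
    rw [Multiset.mem_singleton] at hB
    rw [hB, Finset.card_erase_of_mem (Finset.mem_univ _), Finset.card_univ, ZMod.card]
  · intro i j hij B hB hB'
    rw [Multiset.mem_singleton] at hB hB'
    rw [hB] at hB'
    have : i ∉ Finset.univ.erase i := by simp
    rw [hB'] at this
    simp [hij] at this
  · intro i j S hS
    have : S = ∅ := Finset.card_eq_zero.1 (by omega)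
    rw [this, deg_empty, deg_empty]
    simp

/-- Strength 0, singletons. -/
lemma ex_zero' {N : ℕ} [NeZero N] : Ex N 0 1 N := by
  refine ⟨ZMod N, inferInstance, inferInstance, fun i => {{i}},
    ⟨?_, ?_, ?_, ?_⟩, ZMod.card N⟩
  · intro i; simp
  · intro i B hB
    rw [Multiset.mem_singleton] at hB
    rw [hB, Finset.card_singleton]
  · intro i j hij B hB hB'
    rw [Multiset.mem_singleton] at hB hB'
    rw [hB] at hB'
    exact hij (Finset.singleton_injective hB')
  · intro i j S hS
    have : S = ∅ := Finset.card_eq_zero.1 (by omega)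
    rw [this, deg_empty, deg_empty]
    simp

lemma two_mul_cancel {N : ℕ} (hN : Odd N) {i j : ZMod N} (h : 2 * i = 2 * j) : i = j := by
  have hu : IsUnit ((2 : ℕ) : ZMod N) := by
    rw [ZMod.isUnit_iff_coprime]
    exact (Nat.coprime_two_left).2 hN
  have : ((2 : ℕ) : ZMod N) * i = ((2 : ℕ) : ZMod N) * j := by simpa using h
  exact hu.mul_left_cancel this

/-- The fixed point free involutions of the standard one-factorization. -/
def tau {N : ℕ} (i : ZMod N) : Option (ZMod N) → Option (ZMod N)
  | none => some i
  | some x => if x = i then none else some (2 * i - x)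

lemma tau_tau {N : ℕ} (i : ZMod N) (x : Option (ZMod N)) : tau i (tau i x) = x := by
  cases x with
  | none => simp [tau]
  | some x =>
    by_cases h : x = i
    · simp [tau, h]
    · have : 2 * i - x ≠ i := by
        intro h2
        apply h
        have h3 : x = 2 * i - (2 * i - x) := by ring
        rw [h2] at h3
        rw [h3]; ring
      simp [tau, h, this]

lemma tau_ne {N : ℕ} (hN : Odd N) (i : ZMod N) (x : Option (ZMod N)) : tau i x ≠ x := by
  cases x with
  | none => simp [tau]
  | some x =>
    by_cases h : x = i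
    · simp [tau, h]
    · simp only [tau, h, if_false]
      intro h2
      apply h
      have h3 : 2 * i - x = x := Option.some_injective _ h2
      apply two_mul_cancel hN
      have : 2 * x = x + x := by ring
      rw [this]
      nth_rewrite 1 [← h3]
      ring

lemma tau_inj {N : ℕ} (hN : Odd N) {i j : ZMod N} {x : Option (ZMod N)}
    (h : tau i x = tau j x) : i = j := by
  cases x with
  | none => exact Option.some_injective _ h
  | some x =>
    by_cases h1 : x = i
    · by_cases h2 : x = j
      · rw [← h1, ← h2]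
      · simp [tau, h1] at h
        exact h
    · by_cases h2 : x = j
      · simp [tau, h2] at h
        exact h.symm
      · simp only [tau, h1, h2, if_false] at h
        have h3 : 2 * i - x = 2 * j - x := Option.some_injective _ h
        exact two_mul_cancel hN (sub_left_injective h3)

/-- Strength 1: complements of the edges of the one-factors of `K_{N+1}`, `N` odd. -/
lemma ex_one {N : ℕ} (hN : Odd N) : Ex N 1 (N - 1) (N + 1) := by
  have : NeZero N := ⟨by rintro rfl; simp at hN⟩
  have hcard : Fintype.card (Option (ZMod N)) = N + 1 := by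
    rw [Fintype.card_option, ZMod.card]
  have hpair : ∀ (i : ZMod N) (x : Option (ZMod N)),
      (Finset.univ \ {x, tau i x} : Finset (Option (ZMod N))).card = N - 1 := by
    intro i x
    rw [Finset.card_sdiff_of_subset (Finset.subset_univ _), Finset.card_univ, hcard,
      Finset.card_pair (tau_ne hN i x).symm]
    omega
  refine ⟨Option (ZMod N), inferInstance, inferInstance,
    fun i => (Finset.univ : Finset (Option (ZMod N))).val.map
      (fun x => Finset.univ \ {x, tau i x}), ⟨?_, ?_, ?_, ?_⟩, hcard⟩
  · intro i hi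
    have := Multiset.map_eq_zero.1 hi
    have h2 : (Finset.univ : Finset (Option (ZMod N))) = ∅ := Finset.val_eq_zero.1 this
    have h3 : (none : Option (ZMod N)) ∈ (Finset.univ : Finset (Option (ZMod N))) :=
      Finset.mem_univ _
    rw [h2] at h3
    simp at h3
  · intro i B hB
    obtain ⟨x, _, rfl⟩ := Multiset.mem_map.1 hB
    exact hpair i x
  · intro i j hij B hB hB'
    obtain ⟨x, _, rfl⟩ := Multiset.mem_map.1 hB
    obtain ⟨y, _, h⟩ := Multiset.mem_map.1 hB'
    have h1 : ({y, tau j y} : Finset (Option (ZMod N))) = {x, tau i x} := by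
      have := congrArg (fun s => Finset.univ \ s) h
      simpa using this
    have hx : x ∈ ({y, tau j y} : Finset (Option (ZMod N))) := by rw [h1]; simp
    have hx' : tau i x ∈ ({y, tau j y} : Finset (Option (ZMod N))) := by rw [h1]; simp
    simp only [Finset.mem_insert, Finset.mem_singleton] at hx hx'
    apply hij
    rcases hx with hx | hx
    · rcases hx' with hx' | hx'
      · exact absurd (hx'.trans hx.symm) (tau_ne hN i x)
      · rw [← hx] at hx'
        exact tau_inj hN hx'
    · rcases hx' with hx' | hx'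
      · have h2 : tau j x = y := by rw [hx, tau_tau]
        exact tau_inj hN (hx'.trans h2.symm)
      · exact absurd (hx'.trans hx.symm) (tau_ne hN i x)
  · have hdeg : ∀ (i : ZMod N) (S : Finset (Option (ZMod N))),
        deg ((Finset.univ : Finset (Option (ZMod N))).val.map
          (fun x => Finset.univ \ {x, tau i x})) S
        = (Finset.univ.filter (fun x => S ⊆ Finset.univ \ {x, tau i x})).card := by
      intro i S
      unfold deg
      rw [Multiset.filter_map, Multiset.card_map]
      rfl
    intro i j S hS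
    rw [hdeg, hdeg]
    rcases Nat.lt_or_ge S.card 1 with h0 | h1
    · have : S = ∅ := Finset.card_eq_zero.1 (by omega)
      rw [this]
      simp
    · obtain ⟨y, rfl⟩ := Finset.card_eq_one.1 (by omega : S.card = 1)
      have h2 : ∀ i : ZMod N, (Finset.univ.filter (fun x : Option (ZMod N) =>
          ({y} : Finset (Option (ZMod N))) ⊆ Finset.univ \ {x, tau i x}))
          = Finset.univ \ {y, tau i y} := by
        intro i
        ext x
        simp only [Finset.mem_filter, Finset.mem_univ, true_and, Finset.singleton_subset_iff,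
          Finset.mem_sdiff, Finset.mem_insert, Finset.mem_singleton, not_or]
        constructor
        · rintro ⟨h3, h4⟩
          refine ⟨fun h => h3 h.symm, fun h => h4 ?_⟩
          rw [h, tau_tau]
        · rintro ⟨h3, h4⟩
          refine ⟨fun h => h3 h.symm, fun h => h4 ?_⟩
          rw [h, tau_tau]
      rw [h2, h2, hpair, hpair]

/-- The trades with the smallest foundation `k + t + 1`, for `k = (⌊t/2⌋ + 1)(N - 1)`. -/
lemma ex_main {N : ℕ} (hN : Odd N) : ∀ t,
    Ex N t ((t / 2 + 1) * (N - 1)) ((t / 2 + 1) * (N - 1) + t + 1) := by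
  have : NeZero N := ⟨by rintro rfl; simp at hN⟩
  have hpos : 1 ≤ N := hN.pos
  intro t
  induction t using Nat.twoStepInduction with
  | zero =>
    have := @ex_zero N _
    have h1 : (0 / 2 + 1) * (N - 1) = N - 1 := by simp
    have h2 : (0 / 2 + 1) * (N - 1) + 0 + 1 = N := by rw [h1]; omega
    rw [h2, h1]
    exact this
  | one =>
    have := ex_one hN
    have h1 : (1 / 2 + 1) * (N - 1) = N - 1 := by simp
    have h2 : (1 / 2 + 1) * (N - 1) + 1 + 1 = N + 1 := by rw [h1]; omega
    rw [h2, h1]
    exact this
  | more t ih _ =>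
    have := ih.prod (ex_one hN)
    have h1 : ((t + 2) / 2 + 1) * (N - 1) = (t / 2 + 1) * (N - 1) + (N - 1) := by
      have : (t + 2) / 2 = t / 2 + 1 := by omega
      rw [this]; ring
    have h2 : ((t + 2) / 2 + 1) * (N - 1) + (t + 2) + 1
        = (t / 2 + 1) * (N - 1) + t + 1 + (N + 1) := by rw [h1]; omega
    rw [h2, h1]
    exact this

/-- The exceptional three-legged trades: `t` even, block size `t + 1` on `2t + 3` points. -/
lemma ex_three : ∀ j, Ex 3 (2 * j) (2 * j + 1) (4 * j + 3) := by
  intro j
  induction j with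
  | zero => exact ex_zero' (N := 3)
  | succ j ih =>
    have := ih.prod (ex_one (N := 3) (by decide))
    have h1 : 2 * (j + 1) = 2 * j + 1 + 1 := by ring
    have h2 : 2 * (j + 1) + 1 = 2 * j + 1 + (3 - 1) := by omega
    have h3 : 4 * (j + 1) + 3 = 4 * j + 3 + (3 + 1) := by omega
    rw [h2, h3, h1]
    exact this

/-- Transport to `Fin f` and to fewer legs. -/
lemma Ex.toFin {N' N t k f : ℕ} [NeZero N'] (h : Ex N' t k f) (hN : N ≤ N') :
    ∃ T : Fin N → Multiset (Finset (Fin f)), Str t k T := by
  obtain ⟨X, iF, iD, T, hT, hc⟩ := h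
  have e : X ≃ Fin f := Fintype.equivFinOfCardEq hc
  obtain ⟨g⟩ := Function.Embedding.nonempty_of_card_le (α := Fin N) (β := ZMod N')
    (by rw [Fintype.card_fin, ZMod.card]; exact hN)
  have h1 : Str t k (fun i : Fin N => T (g i)) :=
    ⟨fun i => hT.ne _, fun i => hT.blk _, fun i j hij => hT.dis _ _ (fun h => hij (g.injective h)),
      fun i j => hT.bal _ _⟩
  refine ⟨fun i => (T (g i)).map (fun B => B.map e.toEmbedding), ?_⟩
  refine h1.map _ (Finset.map_injective _) ?_ (fun S => S.map e.symm.toEmbedding) ?_ ?_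
  · intro B hB
    rw [Finset.card_map, hB]
  · intro S
    rw [Finset.card_map]
  · intro S B
    constructor
    · intro h x hx
      obtain ⟨y, hy, rfl⟩ := Finset.mem_map.1 hx
      obtain ⟨z, hz, hzy⟩ := Finset.mem_map.1 (h hy)
      rw [← hzy]
      simpa using hz
    · intro h x hx
      have : e.symm x ∈ S.map e.symm.toEmbedding := Finset.mem_map.2 ⟨x, hx, rfl⟩
      exact Finset.mem_map.2 ⟨e.symm x, h this, by simp⟩

end NLegged
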