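import Pool.Agent.Lib.MP_832176_co.Defs

namespace NLegged

variable {X : Type} [DecidableEq X]

/-- Strong form of an `ι`-legged trade: equal degrees for all sets of size at most `t`. -/
structure Str {ι : Type} (t k : ℕ) (T : ι → Multiset (Finset X)) : Prop where
  ne : ∀ i, T i ≠ 0
  blk : ∀ i, ∀ B ∈ T i, B.card = k
  dis : ∀ i j, i ≠ j → ∀ B ∈ T i, B ∉ T j
  bal : ∀ i j (S : Finset X), S.card ≤ t → deg (T i) S = deg (T j) S

@[simp] lemma deg_zero (S : Finset X) : deg (0 : Multiset (Finset X)) S = 0 := by
  simp [deg]

lemma deg_cons (B : Finset X) (L : Multiset (Finset X)) (S : Finset X) :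
    deg (B ::ₘ L) S = (if S ⊆ B then 1 else 0) + deg L S := by
  unfold deg
  by_cases h : S ⊆ B
  · simp [h, add_comm]
  · simp [h]

lemma deg_empty (L : Multiset (Finset X)) : deg L ∅ = L.card := by
  simp [deg]

lemma deg_add (L M : Multiset (Finset X)) (S : Finset X) :
    deg (L + M) S = deg L S + deg M S := by
  simp [deg]

lemma sum_deg_insert [Fintype X] (L : Multiset (Finset X)) (k : ℕ) (hL : ∀ B ∈ L, B.card = k)
    (S : Finset X) :
    ∑ x ∈ Finset.univ \ S, deg L (insert x S) = (k - S.card) * deg L S := by
  induction L using Multiset.induction_on with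
  | empty => simp
  | cons B L ih =>
    have ih' := ih (fun C hC => hL C (Multiset.mem_cons_of_mem hC))
    simp only [deg_cons, Finset.sum_add_distrib, ih', mul_add]
    congr 1
    have hB : B.card = k := hL B (Multiset.mem_cons_self B L)
    by_cases hS : S ⊆ B
    · have : ∀ x ∈ Finset.univ \ S, (if insert x S ⊆ B then 1 else 0)
          = (if x ∈ B then 1 else 0) := by
        intro x _
        simp [Finset.insert_subset_iff, hS]
      rw [Finset.sum_congr rfl this, if_pos hS, mul_one, Finset.sum_boole]
      have h2 : (Finset.univ \ S).filter (fun x => x ∈ B) = B \ S := by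
        ext x; simp [and_comm]
      rw [h2, Finset.card_sdiff_of_subset hS, hB]
      rfl
    · have : ∀ x ∈ Finset.univ \ S, (if insert x S ⊆ B then 1 else 0) = 0 := by
        intro x _
        rw [if_neg]
        intro h
        exact hS ((Finset.subset_insert x S).trans h)
      rw [Finset.sum_congr rfl this, if_neg hS]
      simp

lemma bal_down [Fintype X] {L M : Multiset (Finset X)} {k t : ℕ} (hL : ∀ B ∈ L, B.card = k)
    (hM : ∀ B ∈ M, B.card = k) (htk : t ≤ k)
    (h : ∀ S : Finset X, S.card = t → deg L S = deg M S) :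
    ∀ S : Finset X, S.card ≤ t → deg L S = deg M S := by
  have key : ∀ d, ∀ S : Finset X, S.card + d = t → deg L S = deg M S := by
    intro d
    induction d with
    | zero => intro S hS; exact h S (by simpa using hS)
    | succ d ih =>
      intro S hS
      have h1 := sum_deg_insert L k hL S
      have h2 := sum_deg_insert M k hM S
      have h3 : ∑ x ∈ Finset.univ \ S, deg L (insert x S)
          = ∑ x ∈ Finset.univ \ S, deg M (insert x S) := by
        apply Finset.sum_congr rfl
        intro x hx
        apply ih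
        rw [Finset.card_insert_of_notMem (by simpa using hx)]
        omega
      rw [h1, h2] at h3
      exact Nat.eq_of_mul_eq_mul_left (by omega) h3
  intro S hS
  exact key (t - S.card) S (by omega)

lemma str_of_legged [Fintype X] {N t k : ℕ} {T : Fin N → Multiset (Finset X)} (hN : 2 ≤ N)
    (htk : t ≤ k) (h : IsLeggedTrade t k T) : Str t k T := by
  have other : ∀ i : Fin N, ∃ j : Fin N, i ≠ j := by
    intro i
    by_cases hi : i.val = 0
    · exact ⟨⟨1, by omega⟩, by intro h; rw [h] at hi; simp at hi⟩
    · exact ⟨⟨0, by omega⟩, by intro h; rw [h] at hi; simp at hi⟩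
  refine ⟨?_, ?_, ?_, ?_⟩
  · intro i
    obtain ⟨j, hj⟩ := other i
    exact (h i j hj).nonempty₁
  · intro i
    obtain ⟨j, hj⟩ := other i
    exact (h i j hj).block₁
  · intro i j hij
    exact (h i j hij).noCommon
  · intro i j S hS
    by_cases hij : i = j
    · rw [hij]
    · exact bal_down (h i j hij).block₁ (h i j hij).block₂ htk (h i j hij).balanced S hS

lemma Str.legged {N t k : ℕ} {T : Fin N → Multiset (Finset X)} (h : Str t k T) :
    IsLeggedTrade t k T := fun i j hij =>
  ⟨h.ne i, h.ne j, h.blk i, h.blk j, h.dis i j hij, fun S hS => h.bal i j S hS.le⟩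

lemma deg_filter_notMem (L : Multiset (Finset X)) (x : X) (S : Finset X) (_hx : x ∉ S) :
    deg (L.filter (fun B => x ∉ B)) S + deg L (insert x S) = deg L S := by
  induction L using Multiset.induction_on with
  | empty => simp
  | cons B L ih =>
    by_cases hxB : x ∈ B
    · rw [Multiset.filter_cons_of_neg _ (by simpa using hxB), deg_cons, deg_cons]
      by_cases hS : S ⊆ B
      · rw [if_pos (Finset.insert_subset hxB hS), if_pos hS]; omega
      · rw [if_neg (fun h => hS ((Finset.subset_insert x S).trans h)), if_neg hS]; omega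
    · rw [Multiset.filter_cons_of_pos _ (by simpa using hxB), deg_cons, deg_cons, deg_cons]
      rw [if_neg (fun h : insert x S ⊆ B => hxB (h (Finset.mem_insert_self x S)))]
      omega

lemma deg_filter_mem (L : Multiset (Finset X)) (x : X) (S : Finset X) (hx : x ∈ S) :
    deg (L.filter (fun B => x ∉ B)) S = 0 := by
  induction L using Multiset.induction_on with
  | empty => simp
  | cons B L ih =>
    by_cases hxB : x ∈ B
    · rw [Multiset.filter_cons_of_neg _ (by simpa using hxB), ih]
    · rw [Multiset.filter_cons_of_pos _ (by simpa using hxB), deg_cons, ih,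
        if_neg (fun h : S ⊆ B => hxB (h hx))]

/-- The residual at a point missed by some block has strength one less. -/
lemma Str.residual {ι : Type} {t k : ℕ} {T : ι → Multiset (Finset X)} (h : Str (t + 1) k T)
    {x : X} {i : ι} {B : Finset X} (hB : B ∈ T i) (hx : x ∉ B) :
    Str t k (fun j => (T j).filter (fun B => x ∉ B)) := by
  have bal : ∀ i j (S : Finset X), S.card ≤ t →
      deg ((T i).filter (fun B => x ∉ B)) S = deg ((T j).filter (fun B => x ∉ B)) S := by
    intro i j S hS
    by_cases hxS : x ∈ S
    · rw [deg_filter_mem _ _ _ hxS, deg_filter_mem _ _ _ hxS]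
    · have h1 := deg_filter_notMem (T i) x S hxS
      have h2 := deg_filter_notMem (T j) x S hxS
      have h3 := h.bal i j S (by omega)
      have h4 := h.bal i j (insert x S) (by rw [Finset.card_insert_of_notMem hxS]; omega)
      omega
  refine ⟨?_, ?_, ?_, bal⟩
  · intro j hj
    have h1 := bal i j ∅ (by simp)
    rw [deg_empty, deg_empty] at h1
    have h2 : (T j).filter (fun B => x ∉ B) = 0 := hj
    rw [h2, Multiset.card_zero, Multiset.card_eq_zero] at h1
    have h3 : B ∈ (T i).filter (fun B => x ∉ B) := Multiset.mem_filter.2 ⟨hB, hx⟩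
    rw [h1] at h3
    simp at h3
  · intro j C hC
    exact h.blk j C (Multiset.mem_filter.1 hC).1
  · intro i j hij C hC hC'
    exact h.dis i j hij C (Multiset.mem_filter.1 hC).1 (Multiset.mem_filter.1 hC').1

/-- In two different legs there are blocks `B`, `B'` and a point of `B'` outside `B`. -/
lemma Str.exists_point {ι : Type} {t k : ℕ} {T : ι → Multiset (Finset X)} (h : Str t k T)
    {i j : ι} (hij : i ≠ j) : ∃ B ∈ T i, ∃ B' ∈ T j, ∃ x ∈ B', x ∉ B := by
  obtain ⟨B, hB⟩ := Multiset.exists_mem_of_ne_zero (h.ne i)
  obtain ⟨B', hB'⟩ := Multiset.exists_mem_of_ne_zero (h.ne j)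
  refine ⟨B, hB, B', hB', ?_⟩
  by_contra hcon
  push Not at hcon
  have hsub : B' ⊆ B := fun x hx => hcon x hx
  have : B' = B := Finset.eq_of_subset_of_card_le hsub (by rw [h.blk i B hB, h.blk j B' hB'])
  rw [this] at hB'
  exact h.dis i j hij B hB hB'

/-- The foundation of a trade has at least `k + t + 1` points (Hwang). -/
lemma Str.lower {ι : Type} {k : ℕ} {i j : ι} (hij : i ≠ j) :
    ∀ {t : ℕ} {T : ι → Multiset (Finset X)}, Str t k T → ∀ Y : Finset X,
      (∀ i, ∀ B ∈ T i, B ⊆ Y) → k + t + 1 ≤ Y.card := by
  intro t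
  induction t with
  | zero =>
    intro T h Y hY
    obtain ⟨B, hB, B', hB', x, hx, hxB⟩ := h.exists_point hij
    have h1 : insert x B ⊆ Y := Finset.insert_subset (hY j B' hB' hx) (hY i B hB)
    have h2 := Finset.card_le_card h1
    rw [Finset.card_insert_of_notMem hxB, h.blk i B hB] at h2
    omega
  | succ t ih =>
    intro T h Y hY
    obtain ⟨B, hB, B', hB', x, hx, hxB⟩ := h.exists_point hij
    have h1 := ih (h.residual hB hxB) (Y.erase x) (by
      intro a C hC
      obtain ⟨hC1, hC2⟩ := Multiset.mem_filter.1 hC
      exact Finset.subset_erase.2 ⟨hY a C hC1, hC2⟩)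
    rw [Finset.card_erase_of_mem (hY j B' hB' hx)] at h1
    omega

/-- If the foundation has only `k + t + 1` points there are at most `k + 1` legs. -/
lemma Str.legs_le {ι : Type} [Fintype ι] {k : ℕ} :
    ∀ {t : ℕ} {T : ι → Multiset (Finset X)}, Str t k T → ∀ Y : Finset X,
      (∀ i, ∀ B ∈ T i, B ⊆ Y) → Y.card = k + t + 1 → Fintype.card ι ≤ k + 1 := by
  intro t
  induction t with
  | zero =>
    intro T h Y hY hc
    choose f hf using fun i => Multiset.exists_mem_of_ne_zero (h.ne i)
    have h1 : Fintype.card ι ≤ (Y.powersetCard k).card := by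
      rw [← Finset.card_univ]
      apply Finset.card_le_card_of_injOn f
      · intro i _
        exact Finset.mem_coe.2 (Finset.mem_powersetCard.2 ⟨hY i _ (hf i), h.blk i _ (hf i)⟩)
      · intro i _ j _ hij
        by_contra hne
        exact h.dis i j hne _ (hf i) (by rw [hij]; exact hf j)
    rw [Finset.card_powersetCard, hc] at h1
    have : (k + 0 + 1).choose k = k + 1 := by simp
    omega
  | succ t ih =>
    intro T h Y hY hc
    by_cases hcard : Fintype.card ι ≤ 1
    · omega
    · obtain ⟨i, j, hij⟩ := Fintype.exists_pair_of_one_lt_card (not_le.1 hcard)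
      obtain ⟨B, hB, B', hB', x, hx, hxB⟩ := h.exists_point hij
      refine ih (h.residual hB hxB) (Y.erase x) (by
        intro a C hC
        obtain ⟨hC1, hC2⟩ := Multiset.mem_filter.1 hC
        exact Finset.subset_erase.2 ⟨hY a C hC1, hC2⟩) ?_
      rw [Finset.card_erase_of_mem (hY j B' hB' hx)]
      omega

end NLegged
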