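import Mathlib

/-! `N`-legged trades: the notions of problem MP_832176_co. -/

namespace NLegged

/-- Number of members of the multiset `L` of blocks that contain the set `S`
(counted with multiplicity). -/
def deg {X : Type} [DecidableEq X] (L : Multiset (Finset X)) (S : Finset X) : ℕ :=
  (L.filter (fun B => S ⊆ B)).card

/-- `(T₁, T₂)` is a `T(t,k,v)` trade on the set `X` (`v = |X|`): two nonempty multisets of
`k`-subsets of `X` without common member such that every `t`-subset of `X` lies in the same
number of members of `T₁` and of `T₂`, counted with multiplicity. -/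
structure IsTrade {X : Type} [DecidableEq X] (t k : ℕ) (T₁ T₂ : Multiset (Finset X)) :
    Prop where
  nonempty₁ : T₁ ≠ 0
  nonempty₂ : T₂ ≠ 0
  block₁ : ∀ B ∈ T₁, B.card = k
  block₂ : ∀ B ∈ T₂, B.card = k
  noCommon : ∀ B ∈ T₁, B ∉ T₂
  balanced : ∀ S : Finset X, S.card = t → deg T₁ S = deg T₂ S

/-- `T` is an `N`-legged trade `T[N](t,k,v)`: every two different legs form a trade. -/
def IsLeggedTrade {X : Type} [DecidableEq X] {N : ℕ} (t k : ℕ)
    (T : Fin N → Multiset (Finset X)) : Prop :=
  ∀ i j : Fin N, i ≠ j → IsTrade t k (T i) (T j)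

/-- The foundation: the set of points covered by the blocks. -/
def foundation {v N : ℕ} (T : Fin N → Multiset (Finset (Fin v))) : Finset (Fin v) :=
  Finset.univ.filter (fun x => ∃ i, ∃ B ∈ T i, x ∈ B)

/-- The set of foundation sizes of `N`-legged trades `T[N](t,k,v)`, over all `v`. -/
def foundationSizes (N t k : ℕ) : Set ℕ :=
  {f | ∃ (v : ℕ) (T : Fin N → Multiset (Finset (Fin v))),
    IsLeggedTrade t k T ∧ (foundation T).card = f}

/-- The set of volumes of `N`-legged trades `T[N](t,k,v)`, over all `v`. -/
def volumes (N t k : ℕ) : Set ℕ :=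
  {m | ∃ (v : ℕ) (T : Fin N → Multiset (Finset (Fin v))),
    IsLeggedTrade t k T ∧ ∀ i, (T i).card = m}

end NLegged
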