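import Pool.Agent.Lib.MP_832176_co.Core

namespace NLegged

variable {X : Type} [DecidableEq X]

lemma full {ι : Type} [Fintype ι] {k : ℕ} {T : ι → Multiset (Finset X)} (h : Str 0 k T)
    {Z : Finset X} (hZ : ∀ i, ∀ B ∈ T i, B ⊆ Z) (hc : Z.card = k + 1)
    (hι : Fintype.card ι = k + 1) :
    (∀ C ⊆ Z, C.card = k → ∃ i, C ∈ T i) ∧ (∀ i, ∀ B ∈ T i, ∀ B' ∈ T i, B = B') := by
  classical
  choose f hf using fun i => Multiset.exists_mem_of_ne_zero (h.ne i)
  have hinj : Function.Injective f := by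
    intro i j hij
    by_contra hne
    exact h.dis i j hne _ (hf i) (by rw [hij]; exact hf j)
  have himg : Finset.univ.image f = Z.powersetCard k := by
    apply Finset.eq_of_subset_of_card_le
    · intro C hC
      obtain ⟨i, _, rfl⟩ := Finset.mem_image.1 hC
      exact Finset.mem_powersetCard.2 ⟨hZ i _ (hf i), h.blk i _ (hf i)⟩
    · rw [Finset.card_image_of_injective _ hinj, Finset.card_univ, hι,
        Finset.card_powersetCard, hc]
      simp
  have hall : ∀ C ⊆ Z, C.card = k → ∃ i, f i = C := by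
    intro C hC hCk
    have : C ∈ Finset.univ.image f := by
      rw [himg]; exact Finset.mem_powersetCard.2 ⟨hC, hCk⟩
    obtain ⟨i, _, hi⟩ := Finset.mem_image.1 this
    exact ⟨i, hi⟩
  constructor
  · intro C hC hCk
    obtain ⟨i, rfl⟩ := hall C hC hCk
    exact ⟨i, hf i⟩
  · have huniq : ∀ i, ∀ B ∈ T i, B = f i := by
      intro i B hB
      obtain ⟨j, hj⟩ := hall B (hZ i B hB) (h.blk i B hB)
      by_cases hij : i = j
      · rw [hij, hj]
      · exact absurd (by rw [← hj]; exact hf j) (h.dis i j hij B hB)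
    intro i B hB B' hB'
    rw [huniq i B hB, huniq i B' hB']

/-- A `(k+1)`-legged trade of strength 1 with foundation of size `k + 2` has `k` even. -/
lemma even_of_legs {ι : Type} [Fintype ι] {k : ℕ} (hk : 1 ≤ k)
    {T : ι → Multiset (Finset X)} (h : Str 1 k T)
    {Y : Finset X} (hY : ∀ i, ∀ B ∈ T i, B ⊆ Y) (hc : Y.card = k + 2)
    (hι : Fintype.card ι = k + 1) : Even k := by
  classical
  obtain ⟨i₀, j₀, hij⟩ := Fintype.exists_pair_of_one_lt_card (by omega : 1 < Fintype.card ι)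
  -- the residual at a missed point
  have main : ∀ y ∈ Y, (∃ i, ∃ B ∈ T i, y ∉ B) →
      (∀ C ⊆ Y.erase y, C.card = k → ∃ i, C ∈ T i) ∧
      (∀ i, ∃ B ∈ T i, y ∉ B) ∧
      (∀ i, ∀ B ∈ T i, y ∉ B → ∀ B' ∈ T i, y ∉ B' → B = B') := by
    intro y hy hmiss
    obtain ⟨i, B, hB, hyB⟩ := hmiss
    have hres := h.residual hB hyB
    have hsub : ∀ i, ∀ B ∈ (T i).filter (fun B => y ∉ B), B ⊆ Y.erase y := by
      intro a C hC
      obtain ⟨hC1, hC2⟩ := Multiset.mem_filter.1 hC
      exact Finset.subset_erase.2 ⟨hY a C hC1, hC2⟩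
    obtain ⟨h1, h2⟩ := full hres hsub (by rw [Finset.card_erase_of_mem hy]; omega) hι
    refine ⟨?_, ?_, ?_⟩
    · intro C hC hCk
      obtain ⟨a, ha⟩ := h1 C hC hCk
      exact ⟨a, (Multiset.mem_filter.1 ha).1⟩
    · intro a
      obtain ⟨C, hC⟩ := Multiset.exists_mem_of_ne_zero (hres.ne a)
      obtain ⟨hC1, hC2⟩ := Multiset.mem_filter.1 hC
      exact ⟨C, hC1, hC2⟩
    · intro a C hC hyC C' hC' hyC'
      exact h2 a C (Multiset.mem_filter.2 ⟨hC, hyC⟩) C' (Multiset.mem_filter.2 ⟨hC', hyC'⟩)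
  -- every point is missed
  have hmissed : ∀ y ∈ Y, ∃ i, ∃ B ∈ T i, y ∉ B := by
    obtain ⟨B, hB, B', hB', y₀, hy₀, hy₀B⟩ := h.exists_point hij
    have hy₀Y := hY j₀ B' hB' hy₀
    intro y hy
    by_cases hyy : y = y₀
    · rw [hyy]; exact ⟨i₀, B, hB, hy₀B⟩
    · obtain ⟨a, ha⟩ := (main y₀ hy₀Y ⟨i₀, B, hB, hy₀B⟩).1 ((Y.erase y₀).erase y)
        (Finset.erase_subset _ _) (by
          rw [Finset.card_erase_of_mem (Finset.mem_erase.2 ⟨hyy, hy⟩),
            Finset.card_erase_of_mem hy₀Y]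
          omega)
      exact ⟨a, _, ha, by simp⟩
  -- count the distinct blocks of the leg `i₀`
  have hone : ∀ y ∈ Y, ((T i₀).toFinset.filter (fun B => y ∉ B)).card = 1 := by
    intro y hy
    obtain ⟨_, h2, h3⟩ := main y hy (hmissed y hy)
    obtain ⟨B, hB, hyB⟩ := h2 i₀
    rw [Finset.card_eq_one]
    refine ⟨B, ?_⟩
    ext C
    simp only [Finset.mem_filter, Multiset.mem_toFinset, Finset.mem_singleton]
    constructor
    · rintro ⟨hC, hyC⟩
      exact h3 i₀ C hC hyC B hB hyB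
    · rintro rfl
      exact ⟨hB, hyB⟩
  have htwo : ∀ B ∈ (T i₀).toFinset, (Y.filter (fun y => y ∉ B)).card = 2 := by
    intro B hB
    rw [Multiset.mem_toFinset] at hB
    have : Y.filter (fun y => y ∉ B) = Y \ B := by
      ext y; simp
    rw [this, Finset.card_sdiff_of_subset (hY i₀ B hB), hc, h.blk i₀ B hB]
    omega
  have hcount : ∑ y ∈ Y, ((T i₀).toFinset.filter (fun B => y ∉ B)).card
      = ∑ B ∈ (T i₀).toFinset, (Y.filter (fun y => y ∉ B)).card := by
    exact Finset.sum_card_bipartiteAbove_eq_sum_card_bipartiteBelow (fun y B => y ∉ B)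
  rw [Finset.sum_congr rfl hone, Finset.sum_congr rfl htwo] at hcount
  simp only [Finset.sum_const, smul_eq_mul, mul_one] at hcount
  rw [hc] at hcount
  have : Even (k + 2) := by rw [hcount]; exact ⟨(T i₀).toFinset.card, by ring⟩
  exact (Nat.even_add.1 this).2 (by decide)

end NLegged
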