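import Pool.Agent.Lib.MP_832176_co.Parity
import Pool.Agent.Lib.MP_832176_co.Constr
import Pool.Agent.Lib.MP_832176_co.StrengthOne

namespace NLegged

lemma subset_foundation {v N : ℕ} (T : Fin N → Multiset (Finset (Fin v))) :
    ∀ i, ∀ B ∈ T i, B ⊆ foundation T := by
  intro i B hB x hx
  exact Finset.mem_filter.2 ⟨Finset.mem_univ x, i, B, hB, hx⟩

lemma foundation_lower {N t k f : ℕ} (hN : 2 ≤ N) (htk : t ≤ k)
    (hf : f ∈ foundationSizes N t k) : k + t + 1 ≤ f := by
  obtain ⟨v, T, hT, rfl⟩ := hf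
  have h := str_of_legged hN htk hT
  have hne : (⟨0, by omega⟩ : Fin N) ≠ ⟨1, by omega⟩ := by
    intro h
    simp at h
  exact h.lower hne (foundation T) (subset_foundation T)

lemma foundation_attained {N' N t k f : ℕ} [NeZero N'] (hN : N ≤ N') (h : Ex N' t k f) :
    ∃ f' ≤ f, f' ∈ foundationSizes N t k := by
  obtain ⟨T, hT⟩ := h.toFin hN
  refine ⟨(foundation T).card, ?_, f, T, hT.legged, rfl⟩
  have := Finset.card_le_univ (foundation T)
  rwa [Fintype.card_fin] at this

lemma foundation_large {N t k : ℕ} (hN : 2 ≤ N) (htk : t ≤ k)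
    (hk : (t / 2 + 1) * (2 * (N / 2)) ≤ k) : IsLeast (foundationSizes N t k) (k + t + 1) := by
  constructor
  · have hodd : Odd (2 * (N / 2) + 1) := ⟨N / 2, rfl⟩
    have : NeZero (2 * (N / 2) + 1) := ⟨by omega⟩
    have h1 := ex_main hodd t
    rw [Nat.add_sub_cancel] at h1
    have h2 := h1.add_points (k - (t / 2 + 1) * (2 * (N / 2)))
    have h3 : (t / 2 + 1) * (2 * (N / 2)) + (k - (t / 2 + 1) * (2 * (N / 2))) = k := by omega
    have h4 : (t / 2 + 1) * (2 * (N / 2)) + t + 1 + (k - (t / 2 + 1) * (2 * (N / 2)))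
        = k + t + 1 := by omega
    rw [h4, h3] at h2
    obtain ⟨f', hf', hmem⟩ := foundation_attained (by omega : N ≤ 2 * (N / 2) + 1) h2
    have := foundation_lower hN htk hmem
    have h5 : f' = k + t + 1 := by omega
    rw [← h5]
    exact hmem
  · intro f hf
    exact foundation_lower hN htk hf

lemma legs_bound {N t k : ℕ} (hN : 2 ≤ N) (htk : t ≤ k)
    (h : k + t + 1 ∈ foundationSizes N t k) : N ≤ k + 1 := by
  obtain ⟨v, T, hT, hc⟩ := h
  have h := str_of_legged hN htk hT
  have := h.legs_le (foundation T) (subset_foundation T) hc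
  rwa [Fintype.card_fin] at this

end NLegged
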