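import Pool.Agent.Lib.MP_832176_co.Core

namespace NLegged

variable {X : Type} [DecidableEq X]

lemma mem_of_deg_pos {L : Multiset (Finset X)} {k : ℕ} (hL : ∀ B ∈ L, B.card = k)
    {B : Finset X} (hB : B.card = k) (h : deg L B ≠ 0) : B ∈ L := by
  unfold deg at h
  rw [Ne, Multiset.card_eq_zero] at h
  obtain ⟨A, hA⟩ := Multiset.exists_mem_of_ne_zero h
  obtain ⟨hA1, hA2⟩ := Multiset.mem_filter.1 hA
  have : B = A := Finset.eq_of_subset_of_card_le hA2 (by rw [hL A hA1, hB])
  rw [this]
  exact hA1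

lemma deg_pos_of_mem {L : Multiset (Finset X)} {B : Finset X} (h : B ∈ L) : 0 < deg L B := by
  unfold deg
  rw [Multiset.card_pos]
  intro h0
  have : B ∈ L.filter (fun C => B ⊆ C) := Multiset.mem_filter.2 ⟨h, Finset.Subset.refl B⟩
  rw [h0] at this
  simp at this

lemma sum_powerset_deg (L : Multiset (Finset X)) (B : Finset X) :
    ∑ S ∈ B.powerset, (-1 : ℤ) ^ S.card * (deg L S : ℤ)
      = ((L.filter (fun A => Disjoint A B)).card : ℤ) := by
  induction L using Multiset.induction_on with
  | empty => simp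
  | cons A L ih =>
    have h1 : ∀ S ∈ B.powerset, (-1 : ℤ) ^ S.card * ((deg (A ::ₘ L) S : ℕ) : ℤ)
        = (if S ⊆ A then (-1 : ℤ) ^ S.card else 0) + (-1 : ℤ) ^ S.card * (deg L S : ℤ) := by
      intro S _
      rw [deg_cons]
      by_cases h : S ⊆ A
      · simp [h, mul_add]
      · simp [h]
    rw [Finset.sum_congr rfl h1, Finset.sum_add_distrib, ih, ← Finset.sum_filter]
    have h2 : B.powerset.filter (fun S => S ⊆ A) = (A ∩ B).powerset := by
      ext S
      simp only [Finset.mem_filter, Finset.mem_powerset, Finset.subset_inter_iff]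
      tauto
    rw [h2, Finset.sum_powerset_neg_one_pow_card]
    by_cases hd : Disjoint A B
    · rw [if_pos (Finset.disjoint_iff_inter_eq_empty.1 hd),
        Multiset.filter_cons_of_pos (p := fun A => Disjoint A B) _ hd, Multiset.card_cons]
      push_cast
      ring
    · rw [if_neg (fun h => hd (Finset.disjoint_iff_inter_eq_empty.2 h)),
        Multiset.filter_cons_of_neg (p := fun A => Disjoint A B) _ hd]
      simp

lemma deg_compl {L M : Multiset (Finset X)} {t : ℕ} {Y B : Finset X}
    (hL : ∀ A ∈ L, A.card = t + 1) (hM : ∀ A ∈ M, A.card = t + 1)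
    (hLY : ∀ A ∈ L, A ⊆ Y) (hMY : ∀ A ∈ M, A ⊆ Y) (hY : Y.card = 2 * t + 2)
    (hBY : B ⊆ Y) (hB : B.card = t + 1)
    (h : ∀ S : Finset X, S.card ≤ t → deg L S = deg M S) (ht : Even t) :
    deg L (Y \ B) + deg L B = deg M (Y \ B) + deg M B := by
  have key : ∀ N : Multiset (Finset X), (∀ A ∈ N, A.card = t + 1) → (∀ A ∈ N, A ⊆ Y) →
      (N.filter (fun A => Disjoint A B)).card = deg N (Y \ B) := by
    intro N hN hNY
    unfold deg
    congr 1
    apply Multiset.filter_congr
    intro A hA
    constructor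
    · intro hd
      have h1 : A ⊆ Y \ B := Finset.subset_sdiff.2 ⟨hNY A hA, hd⟩
      have h2 : (Y \ B).card = t + 1 := by
        rw [Finset.card_sdiff_of_subset hBY, hY, hB]; omega
      rw [← Finset.eq_of_subset_of_card_le h1 (by rw [h2, hN A hA])]
    · intro hs
      have h2 : (Y \ B).card = t + 1 := by
        rw [Finset.card_sdiff_of_subset hBY, hY, hB]; omega
      have h3 : Y \ B = A := Finset.eq_of_subset_of_card_le hs (by rw [h2, hN A hA])
      rw [← h3]
      exact Finset.sdiff_disjoint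
  have h1 := sum_powerset_deg L B
  have h2 := sum_powerset_deg M B
  rw [key L hL hLY] at h1
  rw [key M hM hMY] at h2
  have hself : B ∈ B.powerset := Finset.mem_powerset.2 (Finset.Subset.refl B)
  rw [← Finset.add_sum_erase _ _ hself] at h1 h2
  have h3 : ∑ S ∈ B.powerset.erase B, (-1 : ℤ) ^ S.card * (deg L S : ℤ)
      = ∑ S ∈ B.powerset.erase B, (-1 : ℤ) ^ S.card * (deg M S : ℤ) := by
    apply Finset.sum_congr rfl
    intro S hS
    obtain ⟨hne, hS⟩ := Finset.mem_erase.1 hS
    have hlt : S.card < B.card :=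
      Finset.card_lt_card ((Finset.mem_powerset.1 hS).ssubset_of_ne hne)
    rw [h S (by omega)]
  have hodd : (-1 : ℤ) ^ B.card = -1 := by
    rw [hB]
    exact (Even.add_one ht).neg_one_pow
  rw [h3, hodd] at h1
  rw [hodd] at h2
  have : (deg L (Y \ B) : ℤ) + deg L B = deg M (Y \ B) + deg M B := by linarith
  exact_mod_cast this

/-- For `t` even there is no three-legged trade with block size `t + 1` on `2t + 2` points. -/
lemma no_three {ι : Type} {t : ℕ} {T : ι → Multiset (Finset X)} (h : Str t (t + 1) T)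
    (ht : Even t) {Y : Finset X} (hY : ∀ i, ∀ B ∈ T i, B ⊆ Y) (hc : Y.card = 2 * t + 2)
    {a b c : ι} (hab : a ≠ b) (hac : a ≠ c) (hbc : b ≠ c) : False := by
  obtain ⟨B, hB⟩ := Multiset.exists_mem_of_ne_zero (h.ne a)
  have hBc := h.blk a B hB
  have hBY := hY a B hB
  have hYBc : (Y \ B).card = t + 1 := by
    rw [Finset.card_sdiff_of_subset hBY, hc, hBc]; omega
  have hpos := deg_pos_of_mem hB
  have mem : ∀ j, a ≠ j → Y \ B ∈ T j := by
    intro j hj
    have h1 := deg_compl (h.blk a) (h.blk j) (hY a) (hY j) hc hBY hBc (h.bal a j) ht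
    have h2 : deg (T j) B = 0 := by
      by_contra h0
      exact h.dis a j hj B hB (mem_of_deg_pos (h.blk j) hBc h0)
    apply mem_of_deg_pos (h.blk j) hYBc
    omega
  exact h.dis b c hbc _ (mem b hab) (mem c hac)

end NLegged
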