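import Pool.Agent.Lib.MP_832176_co.VolFin

/-! The case of equality in the lower bounds: large sets of Steiner systems. -/

namespace NLegged

/-- A large set of Steiner systems `S(t,k,n)`: a partition of the set of all `k`-subsets of an
`n`-set into Steiner systems `S(t,k,n)`. -/
def LargeSet (t k n : ℕ) : Prop :=
  ∃ (M : ℕ) (𝓢 : Fin M → Finset (Finset (Fin n))),
    (∀ i, ∀ B ∈ 𝓢 i, B.card = k) ∧
    (∀ B : Finset (Fin n), B.card = k → ∃! i, B ∈ 𝓢 i) ∧
    ∀ i, ∀ S : Finset (Fin n), S.card = t → ∃! B, B ∈ 𝓢 i ∧ S ⊆ B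

variable {X : Type} [DecidableEq X]

section tight

variable {ι : Type} [Fintype ι] {t k : ℕ} {T : ι → Multiset (Finset X)} {Y : Finset X}

/-- all `k`-subsets of `Y` through a covered `t`-set are blocks -/
lemma Str.tight_through (h : Str t k T) (hY : ∀ i, ∀ B ∈ T i, B ⊆ Y)
    (hc : Fintype.card ι = (Y.card - t).choose (k - t)) {S B : Finset X}
    (hS : S ∈ shad t (allBlocks T)) (hB : B ⊆ Y) (hBk : B.card = k) (hSB : S ⊆ B) :
    B ∈ allBlocks T := by
  have h1 : (allBlocks T).filter (fun B => S ⊆ B) ⊆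
      (Y.powersetCard k).filter (fun B => S ⊆ B) := by
    intro C hC
    obtain ⟨hC1, hC2⟩ := Finset.mem_filter.1 hC
    obtain ⟨j, hj⟩ := mem_allBlocks.1 hC1
    exact Finset.mem_filter.2 ⟨Finset.mem_powersetCard.2 ⟨hY j C hj, h.blk j C hj⟩, hC2⟩
  have h2 : ((Y.powersetCard k).filter (fun B => S ⊆ B)).card ≤
      (Y.card - t).choose (k - t) :=
    card_through_le (fun B hB => (Finset.mem_powersetCard.1 hB).2)
      (fun B hB => (Finset.mem_powersetCard.1 hB).1) (mem_shad.1 hS).1 (hSB.trans hB)
  have h3 := Finset.eq_of_subset_of_card_le h1 (by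
    rw [← hc] at h2
    exact h2.trans (h.through hS))
  have h4 : B ∈ (Y.powersetCard k).filter (fun B => S ⊆ B) :=
    Finset.mem_filter.2 ⟨Finset.mem_powersetCard.2 ⟨hB, hBk⟩, hSB⟩
  rw [← h3] at h4
  exact (Finset.mem_filter.1 h4).1

/-- all `t`-subsets of `Y` are covered -/
lemma Str.tight_cover (h : Str t k T) (hY : ∀ i, ∀ B ∈ T i, B ⊆ Y) (htk : t < k)
    (hkY : k ≤ Y.card) (hc : Fintype.card ι = (Y.card - t).choose (k - t)) :
    ∀ (m : ℕ) (S₀ S : Finset X), S₀ ∈ shad t (allBlocks T) → S ⊆ Y → S.card = t →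
      (S \ S₀).card = m → S ∈ shad t (allBlocks T) := by
  intro m
  induction m with
  | zero =>
    intro S₀ S hS₀ _ hS hm
    have h1 : S ⊆ S₀ := Finset.sdiff_eq_empty_iff_subset.1 (Finset.card_eq_zero.1 hm)
    have h2 : S = S₀ := Finset.eq_of_subset_of_card_le h1 (by
      rw [hS, (mem_shad.1 hS₀).1])
    rw [h2]
    exact hS₀
  | succ m ih =>
    intro S₀ S hS₀ hSY hS hm
    obtain ⟨hS₀c, B₀, hB₀, hSB₀⟩ := mem_shad.1 hS₀
    obtain ⟨j, hj⟩ := mem_allBlocks.1 hB₀
    have hS₀Y : S₀ ⊆ Y := hSB₀.trans (hY j B₀ hj)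
    have h1 : (S \ S₀).Nonempty := Finset.card_pos.1 (by omega)
    obtain ⟨b, hb⟩ := h1
    obtain ⟨hbS, hbS₀⟩ := Finset.mem_sdiff.1 hb
    have h2 : (S₀ \ S).card = (S \ S₀).card := by
      have e1 := Finset.card_sdiff_add_card_inter S₀ S
      have e2 := Finset.card_sdiff_add_card_inter S S₀
      rw [Finset.inter_comm] at e2
      omega
    have h3 : (S₀ \ S).Nonempty := Finset.card_pos.1 (by omega)
    obtain ⟨a, ha⟩ := h3
    obtain ⟨haS₀, haS⟩ := Finset.mem_sdiff.1 ha
    obtain ⟨B, hB1, hB2, hB3⟩ := Finset.exists_subsuperset_card_eq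
      (s := insert b S₀) (t := Y) (n := k) (Finset.insert_subset (hSY hbS) hS₀Y)
      (by rw [Finset.card_insert_of_notMem hbS₀]; omega) hkY
    have hB : B ∈ allBlocks T := h.tight_through hY hc hS₀ hB2 hB3
      ((Finset.subset_insert b S₀).trans hB1)
    have hbe : b ∉ S₀.erase a := fun hh => hbS₀ (Finset.mem_of_mem_erase hh)
    have hS₁c : (insert b (S₀.erase a)).card = t := by
      rw [Finset.card_insert_of_notMem hbe, Finset.card_erase_of_mem haS₀, hS₀c]
      have : 0 < S₀.card := Finset.card_pos.2 ⟨a, haS₀⟩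
      omega
    have hS₁ : insert b (S₀.erase a) ∈ shad t (allBlocks T) :=
      mem_shad.2 ⟨hS₁c, B, hB, (Finset.insert_subset_insert b (Finset.erase_subset a S₀)).trans
        hB1⟩
    refine ih _ S hS₁ hSY hS ?_
    have h4 : S \ insert b (S₀.erase a) = (S \ S₀).erase b := by
      ext x
      simp only [Finset.mem_sdiff, Finset.mem_insert, Finset.mem_erase]
      constructor
      · rintro ⟨hx1, hx2⟩
        refine ⟨fun hxb => hx2 (Or.inl hxb), hx1, fun hx3 => hx2 (Or.inr ⟨?_, hx3⟩)⟩
        rintro rfl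
        exact haS hx1
      · rintro ⟨hx1, hx2, hx3⟩
        refine ⟨hx2, ?_⟩
        rintro (hx4 | hx4)
        · exact hx1 hx4
        · exact hx3 hx4.2
    rw [h4, Finset.card_erase_of_mem hb, hm]
    omega

/-- two different blocks of a leg never contain the same covered `t`-set -/
lemma Str.tight_unique (h : Str t k T) (hY : ∀ i, ∀ B ∈ T i, B ⊆ Y)
    (hc : Fintype.card ι = (Y.card - t).choose (k - t)) {S : Finset X}
    (hS : S ∈ shad t (allBlocks T)) {i : ι} {B C : Finset X} (hB : B ∈ T i) (hC : C ∈ T i)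
    (hSB : S ⊆ B) (hSC : S ⊆ C) : B = C := by
  classical
  by_contra hne
  choose f hf using fun i => h.cover hS i
  have h1 : Fintype.card (Option ι) ≤ ((allBlocks T).filter (fun B => S ⊆ B)).card := by
    rw [← Finset.card_univ]
    apply Finset.card_le_card_of_injOn
      (fun o : Option ι => o.elim C (fun j => if j = i then B else f j))
    · intro o _
      rcases o with _ | j
      · exact Finset.mem_coe.2 (Finset.mem_filter.2 ⟨mem_allBlocks.2 ⟨i, hC⟩, hSC⟩)
      · show (if j = i then B else f j) ∈ _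
        split_ifs with hj
        · exact Finset.mem_coe.2 (Finset.mem_filter.2 ⟨mem_allBlocks.2 ⟨i, hB⟩, hSB⟩)
        · exact Finset.mem_coe.2 (Finset.mem_filter.2 ⟨mem_allBlocks.2 ⟨j, (hf j).1⟩, (hf j).2⟩)
    · have hmem : ∀ j, (if j = i then B else f j) ∈ T j := by
        intro j
        split_ifs with hj
        · rw [hj]; exact hB
        · exact (hf j).1
      have hnC : ∀ j, (if j = i then B else f j) ≠ C := by
        intro j hj
        by_cases hji : j = i
        · rw [if_pos hji] at hj
          exact hne hj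
        · have h2 := hmem j
          rw [hj] at h2
          exact h.dis j i hji C h2 hC
      intro o _ o' _ hoo
      rcases o with _ | j <;> rcases o' with _ | j'
      · rfl
      · exact absurd hoo.symm (hnC j')
      · exact absurd hoo (hnC j)
      · by_cases hjj : j = j'
        · rw [hjj]
        · exfalso
          have h2 := hmem j
          have hoo' : (if j = i then B else f j) = (if j' = i then B else f j') := hoo
          rw [hoo'] at h2
          exact h.dis j j' hjj _ h2 (hmem j')
  have h2 : ((allBlocks T).filter (fun B => S ⊆ B)).card ≤ (Y.card - t).choose (k - t) :=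
    card_through_le h.allBlocks_card (fun B hB => by
      obtain ⟨j, hj⟩ := mem_allBlocks.1 hB
      exact hY j B hj) (mem_shad.1 hS).1 (hSB.trans (hY i B hB))
  rw [Fintype.card_option, hc] at h1
  omega

end tight

/-- A trade with `C(n-t,k-t)` legs on `n` points is a large set. -/
theorem Str.largeSet {N t k : ℕ} {T : Fin N → Multiset (Finset X)} {Y : Finset X}
    (h : Str t k T) (hN : 0 < N) (hY : ∀ i, ∀ B ∈ T i, B ⊆ Y) (htk : t < k)
    (hkY : k ≤ Y.card) (hc : N = (Y.card - t).choose (k - t)) : LargeSet t k Y.card := by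
  classical
  have hc' : Fintype.card (Fin N) = (Y.card - t).choose (k - t) := by
    rw [Fintype.card_fin]; exact hc
  -- all `t`-subsets of `Y` are covered
  have hcov : ∀ S : Finset X, S ⊆ Y → S.card = t → S ∈ shad t (allBlocks T) := by
    intro S hSY hS
    obtain ⟨B, hB⟩ := h.allBlocks_nonempty ⟨0, hN⟩
    obtain ⟨S₀, hS₀B, hS₀⟩ := Finset.exists_subset_card_eq (s := B) (n := t)
      (by rw [h.allBlocks_card B hB]; omega)
    exact h.tight_cover hY htk hkY hc' _ S₀ S (mem_shad.2 ⟨hS₀, B, hB, hS₀B⟩) hSY hS rfl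
  have hall : ∀ B : Finset X, B ⊆ Y → B.card = k → ∃ i, B ∈ T i := by
    intro B hB hBk
    obtain ⟨S, hSB, hS⟩ := Finset.exists_subset_card_eq (s := B) (n := t) (by omega)
    exact mem_allBlocks.1 (h.tight_through hY hc' (hcov S (hSB.trans hB) hS) hB hBk hSB)
  -- transport
  have e : Fin Y.card ≃ Y := (Y.equivFin).symm
  let ε : Fin Y.card ↪ X := e.toEmbedding.trans (Function.Embedding.subtype _)
  have hεY : ∀ x, ε x ∈ Y := fun x => (e x).2
  have hεs : ∀ y ∈ Y, ∃ x, ε x = y := by
    intro y hy
    exact ⟨e.symm ⟨y, hy⟩, by simp [ε]⟩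
  have hmapY : ∀ C : Finset (Fin Y.card), C.map ε ⊆ Y := by
    intro C y hy
    obtain ⟨x, _, rfl⟩ := Finset.mem_map.1 hy
    exact hεY x
  have hpre : ∀ B : Finset X, B ⊆ Y → ∃ C : Finset (Fin Y.card), C.map ε = B := by
    intro B hB
    refine ⟨Finset.univ.filter (fun x => ε x ∈ B), ?_⟩
    ext y
    rw [Finset.mem_map]
    constructor
    · rintro ⟨x, hx, rfl⟩
      exact (Finset.mem_filter.1 hx).2
    · intro hy
      obtain ⟨x, rfl⟩ := hεs y (hB hy)
      exact ⟨x, Finset.mem_filter.2 ⟨Finset.mem_univ _, hy⟩, rfl⟩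
  refine ⟨N, fun i => Finset.univ.filter (fun C : Finset (Fin Y.card) => C.map ε ∈ T i),
    ?_, ?_, ?_⟩
  · intro i C hC
    have h1 := h.blk i _ (Finset.mem_filter.1 hC).2
    rwa [Finset.card_map] at h1
  · intro C hC
    obtain ⟨i, hi⟩ := hall (C.map ε) (hmapY C) (by rw [Finset.card_map, hC])
    refine ⟨i, Finset.mem_filter.2 ⟨Finset.mem_univ _, hi⟩, ?_⟩
    intro j hj
    by_contra hne
    exact h.dis j i hne _ (Finset.mem_filter.1 hj).2 hi
  · intro i S hS
    have hS' := hcov (S.map ε) (hmapY S) (by rw [Finset.card_map, hS])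
    obtain ⟨B, hB, hSB⟩ := h.cover hS' i
    obtain ⟨C, hC⟩ := hpre B (hY i B hB)
    refine ⟨C, ⟨Finset.mem_filter.2 ⟨Finset.mem_univ _, by rw [hC]; exact hB⟩, ?_⟩, ?_⟩
    · rw [← hC] at hSB
      exact Finset.map_subset_map.1 hSB
    · rintro C' ⟨hC'1, hC'2⟩
      have h1 := h.tight_unique hY hc' hS' (Finset.mem_filter.1 hC'1).2 hB
        (Finset.map_subset_map.2 hC'2) hSB
      rw [← hC] at h1
      exact Finset.map_injective ε h1

/-! ### from a large set to a trade -/

lemma card_superset {n t k : ℕ} {S : Finset (Fin n)} (hS : S.card = t) (htk : t ≤ k) :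
    ((Finset.univ : Finset (Finset (Fin n))).filter (fun B => B.card = k ∧ S ⊆ B)).card
      = (n - t).choose (k - t) := by
  have h1 : (Finset.univ.filter (fun B : Finset (Fin n) => B.card = k ∧ S ⊆ B)).card
      = ((Finset.univ \ S).powersetCard (k - t)).card := by
    refine Finset.card_bij' (fun B _ => B \ S) (fun C _ => C ∪ S) ?_ ?_ ?_ ?_
    · intro B hB
      obtain ⟨_, hB1, hB2⟩ := Finset.mem_filter.1 hB
      refine Finset.mem_powersetCard.2 ⟨Finset.sdiff_subset_sdiff (Finset.subset_univ _)
        (Finset.Subset.refl _), ?_⟩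
      rw [Finset.card_sdiff_of_subset hB2, hB1, hS]
    · intro C hC
      obtain ⟨hC1, hC2⟩ := Finset.mem_powersetCard.1 hC
      refine Finset.mem_filter.2 ⟨Finset.mem_univ _, ?_, Finset.subset_union_right⟩
      have hd : Disjoint C S := Finset.disjoint_left.2 fun x hx hx2 =>
        (Finset.mem_sdiff.1 (hC1 hx)).2 hx2
      rw [Finset.card_union_of_disjoint hd, hC2, hS]
      omega
    · intro B hB
      obtain ⟨_, _, hB2⟩ := Finset.mem_filter.1 hB
      exact Finset.sdiff_union_of_subset hB2
    · intro C hC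
      obtain ⟨hC1, _⟩ := Finset.mem_powersetCard.1 hC
      have hd : Disjoint C S := Finset.disjoint_left.2 fun x hx hx2 =>
        (Finset.mem_sdiff.1 (hC1 hx)).2 hx2
      rw [Finset.union_sdiff_right]
      exact Finset.sdiff_eq_self_of_disjoint hd
  rw [h1, Finset.card_powersetCard, Finset.card_sdiff_of_subset (Finset.subset_univ _),
    Finset.card_univ, Fintype.card_fin, hS]

theorem LargeSet.trade {t k n : ℕ} (htk : t < k) (hkn : k ≤ n) (h : LargeSet t k n) :
    n ∈ foundationSizes ((n - t).choose (k - t)) t k ∧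
      ∃ V ∈ volumes ((n - t).choose (k - t)) t k, k.choose t * V = n.choose t := by
  classical
  obtain ⟨M, 𝓢, h1, h2, h3⟩ := h
  -- the number of systems
  obtain ⟨S₀, -, hS₀⟩ := Finset.exists_subset_card_eq (s := (Finset.univ : Finset (Fin n)))
    (n := t) (by rw [Finset.card_univ, Fintype.card_fin]; omega)
  have hM : M = (n - t).choose (k - t) := by
    rw [← card_superset hS₀ htk.le]
    choose f hf hf' using fun i => h3 i S₀ hS₀
    have h4 : (Finset.univ : Finset (Fin M)).card = (Finset.univ.filter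
        (fun B : Finset (Fin n) => B.card = k ∧ S₀ ⊆ B)).card := by
      refine Finset.card_bij (fun i _ => f i) ?_ ?_ ?_
      · intro i _
        exact Finset.mem_filter.2 ⟨Finset.mem_univ _, h1 i _ (hf i).1, (hf i).2⟩
      · intro i _ j _ hij
        have hij' : f i = f j := hij
        have h5 := (hf i).1
        have h6 := (hf j).1
        rw [← hij'] at h6
        exact (h2 (f i) (h1 i _ h5)).unique h5 h6
      · intro B hB
        obtain ⟨_, hB1, hB2⟩ := Finset.mem_filter.1 hB
        obtain ⟨i, hi, _⟩ := h2 B hB1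
        exact ⟨i, Finset.mem_univ _, (hf' i B ⟨hi, hB2⟩).symm⟩
    rw [Finset.card_univ, Fintype.card_fin] at h4
    exact h4
  rw [← hM]
  have hdeg : ∀ i, ∀ S : Finset (Fin n), S.card = t → deg (𝓢 i).val S = 1 := by
    intro i S hS
    obtain ⟨B, hB, hB'⟩ := h3 i S hS
    have h4 : deg (𝓢 i).val S = ((𝓢 i).filter (fun B => S ⊆ B)).card := rfl
    rw [h4, Finset.card_eq_one]
    refine ⟨B, ?_⟩
    ext C
    rw [Finset.mem_filter, Finset.mem_singleton]
    constructor
    · intro hC
      exact hB' C hC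
    · rintro rfl
      exact hB
  have hne : ∀ i, (𝓢 i).val ≠ 0 := by
    intro i hi
    have h4 := hdeg i S₀ hS₀
    rw [hi, deg_zero] at h4
    omega
  have hT : IsLeggedTrade t k (fun i => (𝓢 i).val) := by
    intro i j hij
    refine ⟨hne i, hne j, fun B hB => h1 i B hB, fun B hB => h1 j B hB, ?_, ?_⟩
    · intro B hB hB'
      exact hij ((h2 B (h1 i B hB)).unique hB hB')
    · intro S hS
      rw [hdeg i S hS, hdeg j S hS]
  -- the number of blocks of a system
  have hV : ∀ i, k.choose t * (𝓢 i).card = n.choose t := by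
    intro i
    have h4 : ∑ B ∈ 𝓢 i, (B.powersetCard t).card =
        ∑ S ∈ (Finset.univ : Finset (Fin n)).powersetCard t,
          ((𝓢 i).filter (fun B => S ⊆ B)).card := by
      have h5 : ∀ B ∈ 𝓢 i, (B.powersetCard t).card =
          (((Finset.univ : Finset (Fin n)).powersetCard t).filter (fun S => S ⊆ B)).card := by
        intro B _
        congr 1
        ext S
        simp only [Finset.mem_powersetCard, Finset.mem_filter, Finset.subset_univ, true_and]
        exact and_comm
      rw [Finset.sum_congr rfl h5]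
      simp only [Finset.card_filter]
      exact Finset.sum_comm
    have h5 : ∀ B ∈ 𝓢 i, (B.powersetCard t).card = k.choose t := by
      intro B hB
      rw [Finset.card_powersetCard, h1 i B hB]
    have h6 : ∀ S ∈ (Finset.univ : Finset (Fin n)).powersetCard t,
        ((𝓢 i).filter (fun B => S ⊆ B)).card = 1 := by
      intro S hS
      exact hdeg i S (Finset.mem_powersetCard.1 hS).2
    rw [Finset.sum_congr rfl h5, Finset.sum_congr rfl h6, Finset.sum_const, Finset.sum_const,
      Finset.card_powersetCard, Finset.card_univ, Fintype.card_fin, smul_eq_mul, smul_eq_mul,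
      mul_one] at h4
    rw [mul_comm]
    exact h4
  have hMpos : 0 < M := by
    rw [hM]
    exact Nat.choose_pos (by omega)
  constructor
  · refine ⟨n, fun i => (𝓢 i).val, hT, ?_⟩
    have h4 : foundation (fun i => (𝓢 i).val) = Finset.univ := by
      ext x
      simp only [Finset.mem_univ, iff_true]
      obtain ⟨B, hB1, -, hB3⟩ := Finset.exists_subsuperset_card_eq
        (s := ({x} : Finset (Fin n))) (t := Finset.univ) (n := k) (Finset.subset_univ _)
        (by rw [Finset.card_singleton]; omega)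
        (by rw [Finset.card_univ, Fintype.card_fin]; exact hkn)
      obtain ⟨i, hi, _⟩ := h2 B hB3
      exact Finset.mem_filter.2 ⟨Finset.mem_univ _, i, B, hi, hB1 (Finset.mem_singleton_self x)⟩
    rw [h4, Finset.card_univ, Fintype.card_fin]
  · refine ⟨(𝓢 ⟨0, hMpos⟩).card, ⟨n, fun i => (𝓢 i).val, hT, fun i => ?_⟩, hV _⟩
    have h4 := hV i
    have h5 := hV ⟨0, hMpos⟩
    have h6 : 0 < k.choose t := Nat.choose_pos htk.le
    show (𝓢 i).card = _
    exact Nat.eq_of_mul_eq_mul_left h6 (h4.trans h5.symm)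

/-! ### the equality statements -/

theorem choose_ge_two {n t k : ℕ} (htk : t < k) (hkn : k < n) : 2 ≤ (n - t).choose (k - t) := by
  have h1 : (k - t + 1).choose (k - t) ≤ (n - t).choose (k - t) :=
    Nat.choose_le_choose _ (by omega)
  rw [Nat.choose_succ_self_right] at h1
  omega

theorem foundation_eq_iff {t k n : ℕ} (htk : t < k) (hkn : k < n) :
    IsLeast (foundationSizes ((n - t).choose (k - t)) t k) n ↔ LargeSet t k n := by
  have hN := choose_ge_two htk hkn
  constructor
  · rintro ⟨⟨v, T, hT, hc⟩, _⟩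
    have h := str_of_legged hN htk.le hT
    have h1 := h.largeSet (Y := foundation T) (by omega) (subset_foundation T) htk
      (by rw [hc]; omega) (by rw [hc])
    rwa [hc] at h1
  · intro h
    refine ⟨(h.trade htk hkn.le).1, ?_⟩
    intro f hf
    have h1 := foundation_choose hN htk hf
    have h2 := le_of_choose_le (a := f - t) (b := n - t) (D := k - t) (by omega) (by omega)
      le_rfl h1
    omega

/-- In the case of equality the foundation has `n` points. -/
theorem foundation_of_volume {t k n v : ℕ} (ht : 1 ≤ t) (htk : t < k) (hkn : k < n)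
    {T : Fin ((n - t).choose (k - t)) → Multiset (Finset (Fin v))} (h : Str t k T)
    {V : ℕ} (hV : ∀ i, (T i).card = V) (hVn : k.choose t * V = n.choose t) :
    (foundation T).card = n := by
  have hN := choose_ge_two htk hkn
  obtain ⟨t', rfl⟩ : ∃ t', t = t' + 1 := ⟨t - 1, by omega⟩
  obtain ⟨k', rfl⟩ : ∃ k', k = k' + 1 := ⟨k - 1, by omega⟩
  obtain ⟨n', rfl⟩ : ∃ n', n = n' + 1 := ⟨n - 1, by omega⟩
  have i0 : Fin ((n' + 1 - (t' + 1)).choose (k' + 1 - (t' + 1))) := ⟨0, by omega⟩
  have hfound : foundation T = (allBlocks T).biUnion id := by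
    ext x
    simp only [foundation, Finset.mem_filter, Finset.mem_univ, true_and, Finset.mem_biUnion,
      mem_allBlocks, id]
    constructor
    · rintro ⟨i, B, hB, hx⟩
      exact ⟨B, ⟨i, hB⟩, hx⟩
    · rintro ⟨B, ⟨i, hB⟩, hx⟩
      exact ⟨i, B, hB, hx⟩
  have hge : n' + 1 ≤ (foundation T).card := by
    have h1 := h.legs_choose i0 htk.le (Y := foundation T) (subset_foundation T)
    rw [Fintype.card_fin] at h1
    have h2 := le_of_choose_le (by omega) (by omega) le_rfl h1
    have h3 : k' + 1 ≤ (foundation T).card := by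
      obtain ⟨B, hB⟩ := Multiset.exists_mem_of_ne_zero (h.ne i0)
      have h4 := h.blk i0 B hB
      have h5 := Finset.card_le_card (subset_foundation T i0 B hB)
      omega
    omega
  have hle : (foundation T).card ≤ n' + 1 := by
    have h1 : (shad (t' + 1) (allBlocks T)).card ≤ (n' + 1).choose (t' + 1) := by
      rw [← hVn, ← hV i0]
      have h2 : shad (t' + 1) (allBlocks T) ⊆ shad (t' + 1) (T i0).toFinset := by
        intro S hS
        obtain ⟨B, hB, hSB⟩ := h.cover hS i0
        exact mem_shad.2 ⟨(mem_shad.1 hS).1, B, Multiset.mem_toFinset.2 hB, hSB⟩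
      have h3 := shad_le (t' + 1) (k' + 1) (T i0) (h.blk i0)
      have h4 := Finset.card_le_card h2
      rw [mul_comm]
      omega
    have h2 := shad_count (t' + 1) (allBlocks T)
    have h3 : ∀ x ∈ (allBlocks T).biUnion id,
        n'.choose t' ≤ ((shad (t' + 1) (allBlocks T)).filter (fun S => x ∈ S)).card := by
      intro x hx
      refine shad_point (k' := k') (N := (n' + 1 - (t' + 1)).choose (k' + 1 - (t' + 1)))
        (allBlocks T) h.allBlocks_card ?_ ?_ hx
      · intro S hS
        have h4 := h.through hS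
        rwa [Fintype.card_fin] at h4
      · intro 𝓒 h4 h5 h6
        exact shad_lower t' (k := k') (n := n')
          (N := (n' + 1 - (t' + 1)).choose (k' + 1 - (t' + 1))) 𝓒 h4 h5
          (by omega) (by omega) (by rw [Nat.succ_sub_succ, Nat.succ_sub_succ]) h6
    have h4 : (foundation T).card * n'.choose t' ≤ (t' + 1) * (n' + 1).choose (t' + 1) := by
      rw [hfound]
      calc ((allBlocks T).biUnion id).card * n'.choose t'
          = ∑ _x ∈ (allBlocks T).biUnion id, n'.choose t' := by
            rw [Finset.sum_const, smul_eq_mul]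
        _ ≤ ∑ x ∈ (allBlocks T).biUnion id,
            ((shad (t' + 1) (allBlocks T)).filter (fun S => x ∈ S)).card :=
            Finset.sum_le_sum h3
        _ = (t' + 1) * (shad (t' + 1) (allBlocks T)).card := h2
        _ ≤ _ := Nat.mul_le_mul_left _ h1
    have h5 := Nat.add_one_mul_choose_eq n' t'
    rw [mul_comm (t' + 1), ← h5] at h4
    exact Nat.le_of_mul_le_mul_right h4 (Nat.choose_pos (by omega))
  omega

theorem volume_eq_iff {t k n V : ℕ} (ht : 1 ≤ t) (htk : t < k) (hkn : k < n)
    (hV : IsLeast (volumes ((n - t).choose (k - t)) t k) V) :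
    k.choose t * V = n.choose t ↔ LargeSet t k n := by
  have hN := choose_ge_two htk hkn
  constructor
  · intro hVn
    obtain ⟨v, T, hT, hc⟩ := hV.1
    have h := str_of_legged hN htk.le hT
    have h2 := foundation_of_volume ht htk hkn h hc hVn
    have h1 := h.largeSet (Y := foundation T) (by omega) (subset_foundation T) htk
      (by rw [h2]; omega) (by rw [h2])
    rwa [h2] at h1
  · intro h
    obtain ⟨V', hV'1, hV'2⟩ := (h.trade htk hkn.le).2
    have h1 := hV.2 hV'1
    have h2 := volumes_lower hN htk hkn.le le_rfl hV.1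
    refine le_antisymm ?_ h2
    rw [← hV'2]
    exact Nat.mul_le_mul_left _ h1

end NLegged
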