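import Pool.Agent.Lib.MP_832176_co.VolUp

/-! The order of magnitude of the minimum volume and of the minimum foundation. -/

namespace NLegged

/-- `C(D + x, D + 1) ≤ x ^ (D + 1)` -/
lemma choose_le_pow_shift (x : ℕ) (hx : 1 ≤ x) (D : ℕ) :
    (D + x).choose (D + 1) ≤ x ^ (D + 1) := by
  induction D with
  | zero => simp
  | succ D ih =>
    have h1 : (D + x + 1) * (D + x).choose (D + 1) = (D + x + 1).choose (D + 2) * (D + 2) :=
      Nat.add_one_mul_choose_eq (D + x) (D + 1)
    have h2 : (D + x + 1) * (D + x).choose (D + 1) ≤ ((D + 2) * x) * x ^ (D + 1) := by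
      refine Nat.mul_le_mul ?_ ih
      nlinarith
    have h3 : D + 1 + x = D + x + 1 := by omega
    rw [h3]
    have h4 : (D + x + 1).choose (D + 2) * (D + 2) ≤ x ^ (D + 2) * (D + 2) := by
      rw [← h1]
      refine h2.trans (le_of_eq ?_)
      ring
    exact Nat.le_of_mul_le_mul_right h4 (by omega)

/-- the integer part `x` of `N ^ (1 / D)` -/
lemma exists_root (N D : ℕ) (hN : 1 ≤ N) (hD : 1 ≤ D) :
    ∃ x : ℕ, 1 ≤ x ∧ x ^ D ≤ N ∧ N < (x + 1) ^ D := by
  classical
  have hex : ∃ y : ℕ, N < (y + 1) ^ D := by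
    refine ⟨N, ?_⟩
    calc N < N + 1 := Nat.lt_succ_self N
      _ = (N + 1) ^ 1 := (pow_one _).symm
      _ ≤ (N + 1) ^ D := Nat.pow_le_pow_right (by omega) hD
  refine ⟨Nat.find hex, ?_, ?_, Nat.find_spec hex⟩
  · by_contra h
    have h0 : Nat.find hex = 0 := by omega
    have h1 := Nat.find_spec hex
    rw [h0] at h1
    simp at h1
    omega
  · rcases Nat.eq_zero_or_pos (Nat.find hex) with h0 | h0
    · rw [h0, zero_pow (by omega)]
      omega
    · have h1 := Nat.find_min hex (m := Nat.find hex - 1) (by omega)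
      rw [Nat.sub_add_cancel h0] at h1
      omega

theorem volume_root {N t k x : ℕ} (hN : 2 ≤ N) (htk : t < k) (hx : 1 ≤ x)
    (hx1 : x ^ (k - t) ≤ N) (hx2 : N < (x + 1) ^ (k - t)) :
    (∀ m ∈ volumes N t k, x ^ t ≤ k.descFactorial t * m) ∧
      ∃ m ∈ volumes N t k, m ≤ (4 * k * x) ^ t := by
  constructor
  · intro m hm
    obtain ⟨D, hD⟩ : ∃ D, k = t + D + 1 := ⟨k - t - 1, by omega⟩
    have h1 : (D + x).choose (D + 1) ≤ N := by
      refine (choose_le_pow_shift x hx D).trans ?_
      have : k - t = D + 1 := by omega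
      rwa [this] at hx1
    have h2 := volumes_lower (n := t + D + x) hN htk (by omega) (by
      have e1 : t + D + x - t = D + x := by omega
      have e2 : k - t = D + 1 := by omega
      rw [e1, e2]
      exact h1) hm
    have h3 : x ^ t ≤ (t + D + x).descFactorial t := by
      refine le_trans ?_ (Nat.pow_sub_le_descFactorial (t + D + x) t)
      exact Nat.pow_le_pow_left (by omega) t
    rw [Nat.descFactorial_eq_factorial_mul_choose] at h3
    rw [Nat.descFactorial_eq_factorial_mul_choose]
    calc x ^ t ≤ t.factorial * (t + D + x).choose t := h3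
      _ ≤ t.factorial * (k.choose t * m) := Nat.mul_le_mul_left _ h2
      _ = t.factorial * k.choose t * m := by ring
  · obtain ⟨q, hq, hq1, hq2⟩ := Nat.exists_prime_lt_and_le_two_mul (max k (x + 1)) (by
      have : x + 1 ≤ max k (x + 1) := le_max_right _ _
      omega)
    have h1 : k ≤ q := (le_max_left _ _).trans hq1.le
    have h2 : x + 1 ≤ q := (le_max_right _ _).trans hq1.le
    refine ⟨q ^ t, (pow_mem_volumes hq h1 htk.le (hx2.le.trans
      (Nat.pow_le_pow_left h2 _))).1, Nat.pow_le_pow_left ?_ t⟩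
    refine hq2.trans ?_
    have h3 : max k (x + 1) ≤ 2 * k * x := by
      apply max_le
      · nlinarith
      · nlinarith
    nlinarith

theorem foundation_root {N t k x : ℕ} (hN : 2 ≤ N) (htk : t < k) (hx : 1 ≤ x)
    (hx1 : x ^ (k - t) ≤ N) (hx2 : N < (x + 1) ^ (k - t)) :
    (∀ f ∈ foundationSizes N t k, k - 1 + x ≤ f) ∧
      ∃ f ∈ foundationSizes N t k, f ≤ 4 * k ^ 2 * x := by
  constructor
  · intro f hf
    obtain ⟨D, hD⟩ : ∃ D, k = t + D + 1 := ⟨k - t - 1, by omega⟩
    have h1 : (D + x).choose (D + 1) ≤ N := by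
      refine (choose_le_pow_shift x hx D).trans ?_
      have : k - t = D + 1 := by omega
      rwa [this] at hx1
    have h2 := foundation_choose hN htk hf
    have e2 : k - t = D + 1 := by omega
    rw [e2] at h2
    have h3 := le_of_choose_le (by omega) (by omega) h1 h2
    omega
  · obtain ⟨q, hq, hq1, hq2⟩ := Nat.exists_prime_lt_and_le_two_mul (max k (x + 1)) (by
      have : x + 1 ≤ max k (x + 1) := le_max_right _ _
      omega)
    have h1 : k ≤ q := (le_max_left _ _).trans hq1.le
    have h2 : x + 1 ≤ q := (le_max_right _ _).trans hq1.le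
    obtain ⟨f, hf, hmem⟩ := (pow_mem_volumes hq h1 htk.le (hx2.le.trans
      (Nat.pow_le_pow_left h2 _))).2
    refine ⟨f, hmem, hf.trans ?_⟩
    have h3 : max k (x + 1) ≤ 2 * k * x := by
      apply max_le
      · nlinarith
      · nlinarith
    calc k * q ≤ k * (2 * max k (x + 1)) := Nat.mul_le_mul_left _ hq2
      _ ≤ k * (2 * (2 * k * x)) := by gcongr
      _ = 4 * k ^ 2 * x := by ring

end NLegged
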