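import Pool.Agent.Lib.MP_832176_co.Final

/-! Lower bounds for the volume and the foundation of `N`-legged trades. -/

namespace NLegged

variable {X : Type} [DecidableEq X]

/-- The sets of size `t` contained in a member of `𝓑`. -/
def shad (t : ℕ) (𝓑 : Finset (Finset X)) : Finset (Finset X) :=
  𝓑.biUnion (fun B => B.powersetCard t)

lemma mem_shad {t : ℕ} {𝓑 : Finset (Finset X)} {S : Finset X} :
    S ∈ shad t 𝓑 ↔ S.card = t ∧ ∃ B ∈ 𝓑, S ⊆ B := by
  unfold shad
  rw [Finset.mem_biUnion]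
  constructor
  · rintro ⟨B, hB, hS⟩
    rw [Finset.mem_powersetCard] at hS
    exact ⟨hS.2, B, hB, hS.1⟩
  · rintro ⟨h, B, hB, hS⟩
    exact ⟨B, hB, Finset.mem_powersetCard.2 ⟨hS, h⟩⟩

/-- The number of blocks through a set `S` inside a set `Y`. -/
lemma card_through_le {k t : ℕ} {𝓑 : Finset (Finset X)} (hk : ∀ B ∈ 𝓑, B.card = k)
    {Y S : Finset X} (hY : ∀ B ∈ 𝓑, B ⊆ Y) (hS : S.card = t) (hSY : S ⊆ Y) :
    (𝓑.filter (fun B => S ⊆ B)).card ≤ (Y.card - t).choose (k - t) := by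
  have h1 : (𝓑.filter (fun B => S ⊆ B)).card ≤ ((Y \ S).powersetCard (k - t)).card := by
    apply Finset.card_le_card_of_injOn (fun B => B \ S)
    · intro B hB
      obtain ⟨hB1, hB2⟩ := Finset.mem_filter.1 (Finset.mem_coe.1 hB)
      refine Finset.mem_coe.2 (Finset.mem_powersetCard.2 ⟨?_, ?_⟩)
      · exact Finset.sdiff_subset_sdiff (hY B hB1) (Finset.Subset.refl S)
      · rw [Finset.card_sdiff_of_subset hB2, hk B hB1, hS]
    · intro B hB C hC hBC
      have hB2 := (Finset.mem_filter.1 (Finset.mem_coe.1 hB)).2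
      have hC2 := (Finset.mem_filter.1 (Finset.mem_coe.1 hC)).2
      have hBC' : B \ S = C \ S := hBC
      rw [← Finset.sdiff_union_of_subset hB2, ← Finset.sdiff_union_of_subset hC2, hBC']
  rw [Finset.card_powersetCard, Finset.card_sdiff_of_subset hSY, hS] at h1
  exact h1

/-- strict growth of binomial coefficients -/
lemma le_of_choose_le {a b D N : ℕ} (hD : 1 ≤ D) (hb : D ≤ b) (h1 : b.choose D ≤ N)
    (h2 : N ≤ a.choose D) : b ≤ a := by
  by_contra hcon
  have hlt : a < b := not_le.1 hcon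
  obtain ⟨c, rfl⟩ : ∃ c, b = c + 1 := ⟨b - 1, by omega⟩
  obtain ⟨E, rfl⟩ : ∃ E, D = E + 1 := ⟨D - 1, by omega⟩
  have h3 : a.choose (E + 1) ≤ c.choose (E + 1) := Nat.choose_le_choose _ (by omega)
  have h4 : 0 < c.choose E := Nat.choose_pos (by omega)
  have h5 : (c + 1).choose (E + 1) = c.choose E + c.choose (E + 1) := Nat.choose_succ_succ c E
  omega

/-- A point of the support lies in at least `C(n',t)` covered sets. -/
lemma shad_point {t k' n' N : ℕ} (𝓑 : Finset (Finset X)) (hk : ∀ B ∈ 𝓑, B.card = k' + 1)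
    (hdeg : ∀ S ∈ shad (t + 1) 𝓑, N ≤ (𝓑.filter (fun B => S ⊆ B)).card)
    (ih : ∀ 𝓒 : Finset (Finset X), 𝓒.Nonempty → (∀ B ∈ 𝓒, B.card = k') →
      (∀ S ∈ shad t 𝓒, N ≤ (𝓒.filter (fun B => S ⊆ B)).card) → n'.choose t ≤ (shad t 𝓒).card)
    {x : X} (hx : x ∈ 𝓑.biUnion id) :
    n'.choose t ≤ ((shad (t + 1) 𝓑).filter (fun S => x ∈ S)).card := by
  obtain ⟨B₀, hB₀, hxB₀⟩ := Finset.mem_biUnion.1 hx
  have hxB₀' : x ∈ B₀ := hxB₀
  set 𝓒 : Finset (Finset X) := (𝓑.filter (fun B => x ∈ B)).image (fun B => B.erase x)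
    with h𝓒
  have hmem𝓒 : ∀ C, C ∈ 𝓒 ↔ x ∉ C ∧ insert x C ∈ 𝓑 := by
    intro C
    rw [h𝓒, Finset.mem_image]
    constructor
    · rintro ⟨B, hB, rfl⟩
      obtain ⟨hB1, hB2⟩ := Finset.mem_filter.1 hB
      refine ⟨Finset.notMem_erase x B, ?_⟩
      rw [Finset.insert_erase hB2]
      exact hB1
    · rintro ⟨h1, h2⟩
      exact ⟨insert x C, Finset.mem_filter.2 ⟨h2, Finset.mem_insert_self x C⟩,
        Finset.erase_insert h1⟩
  have h1 := ih 𝓒
    ⟨B₀.erase x, (hmem𝓒 _).2 ⟨Finset.notMem_erase x B₀, by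
      rw [Finset.insert_erase hxB₀']; exact hB₀⟩⟩
    (by
      intro C hC
      obtain ⟨h2, h3⟩ := (hmem𝓒 C).1 hC
      have h4 := hk _ h3
      rw [Finset.card_insert_of_notMem h2] at h4
      omega)
    (by
      intro S hS
      obtain ⟨hS1, C, hC, hSC⟩ := mem_shad.1 hS
      obtain ⟨h2, h3⟩ := (hmem𝓒 C).1 hC
      have hxS : x ∉ S := fun h => h2 (hSC h)
      have h4 := hdeg (insert x S) (mem_shad.2 ⟨by
        rw [Finset.card_insert_of_notMem hxS, hS1], _, h3, Finset.insert_subset_insert x hSC⟩)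
      refine h4.trans ?_
      apply Finset.card_le_card_of_injOn (fun B => B.erase x)
      · intro B hB
        obtain ⟨hB1, hB2⟩ := Finset.mem_filter.1 (Finset.mem_coe.1 hB)
        have hxB : x ∈ B := hB2 (Finset.mem_insert_self x S)
        refine Finset.mem_coe.2 (Finset.mem_filter.2 ⟨(hmem𝓒 _).2
          ⟨Finset.notMem_erase x B, ?_⟩, ?_⟩)
        · rw [Finset.insert_erase hxB]; exact hB1
        · exact Finset.subset_erase.2 ⟨(Finset.subset_insert x S).trans hB2, hxS⟩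
      · intro B hB C' hC' hBC
        have hxB : x ∈ B := (Finset.mem_filter.1 (Finset.mem_coe.1 hB)).2
          (Finset.mem_insert_self x S)
        have hxC : x ∈ C' := (Finset.mem_filter.1 (Finset.mem_coe.1 hC')).2
          (Finset.mem_insert_self x S)
        have hBC' : B.erase x = C'.erase x := hBC
        rw [← Finset.insert_erase hxB, hBC', Finset.insert_erase hxC])
  refine h1.trans ?_
  apply Finset.card_le_card_of_injOn (fun S => insert x S)
  · intro S hS
    obtain ⟨hS1, C, hC, hSC⟩ := mem_shad.1 (Finset.mem_coe.1 hS)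
    obtain ⟨h2, h3⟩ := (hmem𝓒 C).1 hC
    have hxS : x ∉ S := fun h => h2 (hSC h)
    refine Finset.mem_coe.2 (Finset.mem_filter.2 ⟨mem_shad.2 ⟨?_, _, h3,
      Finset.insert_subset_insert x hSC⟩, Finset.mem_insert_self x S⟩)
    rw [Finset.card_insert_of_notMem hxS, hS1]
  · intro S hS S' hS' hSS
    obtain ⟨_, C, hC, hSC⟩ := mem_shad.1 (Finset.mem_coe.1 hS)
    obtain ⟨_, C', hC', hSC'⟩ := mem_shad.1 (Finset.mem_coe.1 hS')
    have hxS : x ∉ S := fun h => ((hmem𝓒 C).1 hC).1 (hSC h)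
    have hxS' : x ∉ S' := fun h => ((hmem𝓒 C').1 hC').1 (hSC' h)
    have hSS' : insert x S = insert x S' := hSS
    rw [← Finset.erase_insert hxS, hSS', Finset.erase_insert hxS']

/-- Double counting of the pairs (point, covered set). -/
lemma shad_count (t : ℕ) (𝓑 : Finset (Finset X)) :
    ∑ x ∈ 𝓑.biUnion id, ((shad t 𝓑).filter (fun S => x ∈ S)).card = t * (shad t 𝓑).card := by
  have h1 : ∑ x ∈ 𝓑.biUnion id, ((shad t 𝓑).filter (fun S => x ∈ S)).card
      = ∑ S ∈ shad t 𝓑, ((𝓑.biUnion id).filter (fun x => x ∈ S)).card := by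
    simp only [Finset.card_filter]
    exact Finset.sum_comm
  rw [h1]
  have h2 : ∀ S ∈ shad t 𝓑, ((𝓑.biUnion id).filter (fun x => x ∈ S)).card = t := by
    intro S hS
    obtain ⟨hS1, B, hB, hSB⟩ := mem_shad.1 hS
    have h3 : (𝓑.biUnion id).filter (fun x => x ∈ S) = S := by
      ext x
      rw [Finset.mem_filter]
      exact ⟨fun h => h.2, fun h => ⟨Finset.mem_biUnion.2 ⟨B, hB, hSB h⟩, h⟩⟩
    rw [h3, hS1]
  rw [Finset.sum_congr rfl h2, Finset.sum_const, smul_eq_mul, mul_comm]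

/-- If every covered `t`-set lies in at least `N ≥ C(n-t,k-t)` blocks, at least `C(n,t)` sets
of size `t` are covered. -/
lemma shad_lower : ∀ (t : ℕ) {k n N : ℕ} (𝓑 : Finset (Finset X)), 𝓑.Nonempty →
    (∀ B ∈ 𝓑, B.card = k) → t < k → k ≤ n → (n - t).choose (k - t) ≤ N →
    (∀ S ∈ shad t 𝓑, N ≤ (𝓑.filter (fun B => S ⊆ B)).card) →
    n.choose t ≤ (shad t 𝓑).card := by
  intro t
  induction t with
  | zero =>
    intro k n N 𝓑 hne _ _ _ _ _
    rw [Nat.choose_zero_right]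
    obtain ⟨B, hB⟩ := hne
    exact Finset.card_pos.2 ⟨∅, mem_shad.2 ⟨rfl, B, hB, Finset.empty_subset B⟩⟩
  | succ t ih =>
    intro k n N 𝓑 hne hk htk hkn hN hdeg
    obtain ⟨k', rfl⟩ : ∃ k', k = k' + 1 := ⟨k - 1, by omega⟩
    obtain ⟨n', rfl⟩ : ∃ n', n = n' + 1 := ⟨n - 1, by omega⟩
    rw [Nat.succ_sub_succ, Nat.succ_sub_succ] at hN
    set Y : Finset X := 𝓑.biUnion id with hYdef
    have hY : ∀ B ∈ 𝓑, B ⊆ Y := by
      intro B hB x hx
      exact Finset.mem_biUnion.2 ⟨B, hB, hx⟩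
    -- the support has at least `n` points
    have hYn : n' + 1 ≤ Y.card := by
      obtain ⟨B, hB⟩ := hne
      obtain ⟨S, hSB, hS⟩ := Finset.exists_subset_card_eq (s := B) (n := t + 1)
        (by rw [hk B hB]; omega)
      have h1 := hdeg S (mem_shad.2 ⟨hS, B, hB, hSB⟩)
      have h2 := card_through_le hk hY hS (hSB.trans (hY B hB))
      rw [Nat.succ_sub_succ] at h2
      have h3 := le_of_choose_le (a := Y.card - (t + 1)) (b := n' - t) (D := k' - t)
        (by omega) (by omega) hN (h1.trans h2)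
      have h4 : t + 1 ≤ Y.card := by
        rw [← hS]
        exact Finset.card_le_card (hSB.trans (hY B hB))
      omega
    have hpt : ∀ x ∈ Y, n'.choose t ≤ ((shad (t + 1) 𝓑).filter (fun S => x ∈ S)).card :=
      fun x hx => shad_point 𝓑 hk hdeg (fun 𝓒 h1 h2 h3 =>
        ih 𝓒 h1 h2 (by omega) (by omega) hN h3) hx
    -- double counting
    have hcount := shad_count (t + 1) 𝓑
    rw [← hYdef] at hcount
    have hfin : (n' + 1) * n'.choose t ≤ (t + 1) * (shad (t + 1) 𝓑).card := by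
      rw [← hcount]
      calc (n' + 1) * n'.choose t ≤ Y.card * n'.choose t := Nat.mul_le_mul_right _ hYn
        _ = ∑ _x ∈ Y, n'.choose t := by rw [Finset.sum_const, smul_eq_mul]
        _ ≤ _ := Finset.sum_le_sum hpt
    have h5 := Nat.add_one_mul_choose_eq n' t
    rw [h5, mul_comm] at hfin
    exact Nat.le_of_mul_le_mul_left hfin (by omega)

/-- all blocks of a family of legs -/
def allBlocks {ι : Type} [Fintype ι] (T : ι → Multiset (Finset X)) : Finset (Finset X) :=
  Finset.univ.biUnion (fun i => (T i).toFinset)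

lemma mem_allBlocks {ι : Type} [Fintype ι] {T : ι → Multiset (Finset X)} {B : Finset X} :
    B ∈ allBlocks T ↔ ∃ i, B ∈ T i := by
  simp [allBlocks]

lemma deg_pos {L : Multiset (Finset X)} {S : Finset X} : 0 < deg L S ↔ ∃ B ∈ L, S ⊆ B := by
  unfold deg
  rw [Multiset.card_pos_iff_exists_mem]
  simp only [Multiset.mem_filter]

/-- A covered `t`-set lies in a block of every leg. -/
lemma Str.cover {ι : Type} [Fintype ι] {t k : ℕ} {T : ι → Multiset (Finset X)} (h : Str t k T)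
    {S : Finset X} (hS : S ∈ shad t (allBlocks T)) (i : ι) : ∃ B ∈ T i, S ⊆ B := by
  obtain ⟨hc, B, hB, hSB⟩ := mem_shad.1 hS
  obtain ⟨j, hj⟩ := mem_allBlocks.1 hB
  rw [← deg_pos, h.bal i j S hc.le, deg_pos]
  exact ⟨B, hj, hSB⟩

/-- A covered `t`-set lies in at least `N` blocks. -/
lemma Str.through {ι : Type} [Fintype ι] {t k : ℕ} {T : ι → Multiset (Finset X)}
    (h : Str t k T) {S : Finset X} (hS : S ∈ shad t (allBlocks T)) :
    Fintype.card ι ≤ ((allBlocks T).filter (fun B => S ⊆ B)).card := by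
  choose f hf using fun i => h.cover hS i
  rw [← Finset.card_univ]
  apply Finset.card_le_card_of_injOn f
  · intro i _
    exact Finset.mem_coe.2 (Finset.mem_filter.2 ⟨mem_allBlocks.2 ⟨i, (hf i).1⟩, (hf i).2⟩)
  · intro i _ j _ hij
    by_contra hne
    exact h.dis i j hne _ (hf i).1 (by rw [hij]; exact (hf j).1)

lemma Str.allBlocks_card {ι : Type} [Fintype ι] {t k : ℕ} {T : ι → Multiset (Finset X)}
    (h : Str t k T) : ∀ B ∈ allBlocks T, B.card = k := by
  intro B hB
  obtain ⟨i, hi⟩ := mem_allBlocks.1 hB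
  exact h.blk i B hi

lemma Str.allBlocks_nonempty {ι : Type} [Fintype ι] {t k : ℕ} {T : ι → Multiset (Finset X)}
    (h : Str t k T) (i : ι) : (allBlocks T).Nonempty := by
  obtain ⟨B, hB⟩ := Multiset.exists_mem_of_ne_zero (h.ne i)
  exact ⟨B, mem_allBlocks.2 ⟨i, hB⟩⟩

/-- The number of legs is at most `C(f - t, k - t)`. -/
lemma Str.legs_choose {ι : Type} [Fintype ι] {t k : ℕ} {T : ι → Multiset (Finset X)}
    (h : Str t k T) (i : ι) (htk : t ≤ k) {Y : Finset X} (hY : ∀ i, ∀ B ∈ T i, B ⊆ Y) :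
    Fintype.card ι ≤ (Y.card - t).choose (k - t) := by
  obtain ⟨B, hB⟩ := Multiset.exists_mem_of_ne_zero (h.ne i)
  obtain ⟨S, hSB, hS⟩ := Finset.exists_subset_card_eq (s := B) (n := t)
    (by rw [h.blk i B hB]; omega)
  refine (h.through (mem_shad.2 ⟨hS, B, mem_allBlocks.2 ⟨i, hB⟩, hSB⟩)).trans ?_
  refine card_through_le h.allBlocks_card ?_ hS (hSB.trans (hY i B hB))
  intro C hC
  obtain ⟨j, hj⟩ := mem_allBlocks.1 hC
  exact hY j C hj

lemma shad_le (t k : ℕ) (L : Multiset (Finset X)) (hL : ∀ B ∈ L, B.card = k) :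
    (shad t L.toFinset).card ≤ L.card * k.choose t := by
  unfold shad
  refine Finset.card_biUnion_le.trans ?_
  have h1 : ∑ B ∈ L.toFinset, (Finset.powersetCard t B).card
      = ∑ _B ∈ L.toFinset, k.choose t := by
    refine Finset.sum_congr rfl fun B hB => ?_
    rw [Finset.card_powersetCard, hL B (Multiset.mem_toFinset.1 hB)]
  rw [h1, Finset.sum_const, smul_eq_mul]
  exact Nat.mul_le_mul_right _ (Multiset.toFinset_card_le L)

/-- Lower bound for the volume. -/
lemma Str.volume_lower {ι : Type} [Fintype ι] {t k n : ℕ} {T : ι → Multiset (Finset X)}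
    (h : Str t k T) (i : ι) (htk : t < k) (hkn : k ≤ n)
    (hn : (n - t).choose (k - t) ≤ Fintype.card ι) :
    n.choose t ≤ k.choose t * (T i).card := by
  have h1 := shad_lower t (allBlocks T) (h.allBlocks_nonempty i) h.allBlocks_card htk hkn hn
    (fun S hS => h.through hS)
  have h2 : shad t (allBlocks T) ⊆ shad t (T i).toFinset := by
    intro S hS
    obtain ⟨B, hB, hSB⟩ := h.cover hS i
    exact mem_shad.2 ⟨(mem_shad.1 hS).1, B, Multiset.mem_toFinset.2 hB, hSB⟩
  have h3 := shad_le t k (T i) (h.blk i)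
  have h4 := Finset.card_le_card h2
  rw [mul_comm]
  omega

theorem volumes_lower {N t k n m : ℕ} (hN : 2 ≤ N) (htk : t < k) (hkn : k ≤ n)
    (hn : (n - t).choose (k - t) ≤ N) (hm : m ∈ volumes N t k) :
    n.choose t ≤ k.choose t * m := by
  obtain ⟨v, T, hT, hc⟩ := hm
  have h := str_of_legged hN htk.le hT
  have h1 := h.volume_lower ⟨0, by omega⟩ htk hkn (by rwa [Fintype.card_fin])
  rwa [hc] at h1

theorem foundation_choose {N t k f : ℕ} (hN : 2 ≤ N) (htk : t < k)
    (hf : f ∈ foundationSizes N t k) : N ≤ (f - t).choose (k - t) := by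
  obtain ⟨v, T, hT, rfl⟩ := hf
  have h := str_of_legged hN htk.le hT
  have h1 := h.legs_choose ⟨0, by omega⟩ htk.le (Y := foundation T) (subset_foundation T)
  rwa [Fintype.card_fin] at h1

end NLegged
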