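import Pool.Agent.Lib.MP_832176_co.VolLow

/-! Upper bounds: the cosets of a Reed-Solomon code are the legs of a trade. -/

namespace NLegged

/-- From any finite index set and any finite ground set to `Fin N` and `Fin v`. -/
lemma Str.toFin {ι X : Type} [Fintype ι] [Fintype X] [DecidableEq X] {t k N : ℕ}
    {T : ι → Multiset (Finset X)} (h : Str t k T) (hN : N ≤ Fintype.card ι) :
    ∃ (T' : Fin N → Multiset (Finset (Fin (Fintype.card X)))) (g : Fin N → ι),
      Str t k T' ∧ ∀ i, (T' i).card = (T (g i)).card := by
  have e : X ≃ Fin (Fintype.card X) := Fintype.equivFin X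
  obtain ⟨g⟩ := Function.Embedding.nonempty_of_card_le (α := Fin N) (β := ι)
    (by rw [Fintype.card_fin]; exact hN)
  have h1 : Str t k (fun i : Fin N => T (g i)) :=
    ⟨fun i => h.ne _, fun i => h.blk _, fun i j hij => h.dis _ _ (fun h => hij (g.injective h)),
      fun i j => h.bal _ _⟩
  refine ⟨fun i => (T (g i)).map (fun B => B.map e.toEmbedding), g, ?_, ?_⟩
  · refine h1.map _ (Finset.map_injective _) ?_ (fun S => S.map e.symm.toEmbedding) ?_ ?_
    · intro B hB
      rw [Finset.card_map, hB]
    · intro S
      rw [Finset.card_map]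
    · intro S B
      constructor
      · intro h x hx
        obtain ⟨y, hy, rfl⟩ := Finset.mem_map.1 hx
        obtain ⟨z, hz, hzy⟩ := Finset.mem_map.1 (h hy)
        rw [← hzy]
        simpa using hz
      · intro h x hx
        have : e.symm x ∈ S.map e.symm.toEmbedding := Finset.mem_map.2 ⟨x, hx, rfl⟩
        exact Finset.mem_map.2 ⟨e.symm x, h this, by simp⟩
  · intro i
    rw [Multiset.card_map]

section RS

set_option linter.unusedSectionVars false

variable {F : Type} [Field F] [Fintype F] [DecidableEq F]

/-- the block of a word -/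
def wblock {k : ℕ} (w : Fin k → F) : Finset (Fin k × F) :=
  Finset.univ.image (fun i => (i, w i))

lemma mem_wblock {k : ℕ} {w : Fin k → F} {p : Fin k × F} : p ∈ wblock w ↔ w p.1 = p.2 := by
  unfold wblock
  rw [Finset.mem_image]
  constructor
  · rintro ⟨i, _, rfl⟩
    rfl
  · intro h
    exact ⟨p.1, Finset.mem_univ _, by rw [h]⟩

lemma wblock_card {k : ℕ} (w : Fin k → F) : (wblock w).card = k := by
  unfold wblock
  rw [Finset.card_image_of_injective, Finset.card_univ, Fintype.card_fin]
  intro i j hij
  exact (Prod.mk.inj hij).1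

lemma wblock_injective {k : ℕ} : Function.Injective (wblock : (Fin k → F) → _) := by
  intro w w' h
  funext i
  have h1 : (i, w i) ∈ wblock w' := by
    rw [← h]
    exact mem_wblock.2 rfl
  exact (mem_wblock.1 h1).symm

/-- the word of a coefficient vector: the values of the polynomial at the points `a i` -/
def word {K : ℕ} (a : Fin K → F) (e : Fin K → F) : Fin K → F :=
  fun i => ∑ j : Fin K, a i ^ (j : ℕ) * e j

lemma vand_inj {m : ℕ} {b : Fin m → F} (hb : Function.Injective b) {c c' : Fin m → F}
    (h : ∀ i, ∑ j : Fin m, b i ^ (j : ℕ) * c j = ∑ j : Fin m, b i ^ (j : ℕ) * c' j) :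
    c = c' := by
  have h1 : (Matrix.vandermonde b).det ≠ 0 := Matrix.det_vandermonde_ne_zero_iff.2 hb
  have h2 : (Matrix.vandermonde b).mulVec (c - c') = 0 := by
    funext i
    rw [Matrix.mulVec_sub]
    show (Matrix.vandermonde b).mulVec c i - (Matrix.vandermonde b).mulVec c' i = 0
    rw [sub_eq_zero]
    exact h i
  exact sub_eq_zero.1 (Matrix.eq_zero_of_mulVec_eq_zero h1 h2)

lemma word_injective {K : ℕ} {a : Fin K → F} (ha : Function.Injective a) :
    Function.Injective (word a) := by
  intro e e' h
  exact vand_inj ha fun i => congrFun h i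

/-- the leg with upper coefficients `d` -/
def leg {t D : ℕ} (a : Fin (t + D) → F) (d : Fin D → F) : Multiset (Finset (Fin (t + D) × F)) :=
  (Finset.univ : Finset (Fin t → F)).val.map fun c => wblock (word a (Fin.append c d))

lemma leg_card {t D : ℕ} (a : Fin (t + D) → F) (d : Fin D → F) :
    (leg a d).card = Fintype.card F ^ t := by
  unfold leg
  rw [Multiset.card_map, Finset.card_val, Finset.card_univ, Fintype.card_fun, Fintype.card_fin]

lemma deg_leg {t D : ℕ} (a : Fin (t + D) → F) (d : Fin D → F) (S : Finset (Fin (t + D) × F)) :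
    deg (leg a d) S = (Finset.univ.filter
      (fun c : Fin t → F => S ⊆ wblock (word a (Fin.append c d)))).card := by
  unfold deg leg
  rw [Multiset.filter_map, Multiset.card_map]
  rfl

lemma part_bijective {t D : ℕ} {a : Fin (t + D) → F} (ha : Function.Injective a) (d : Fin D → F)
    {s : Fin t → Fin (t + D)} (hs : Function.Injective s) :
    Function.Bijective (fun (c : Fin t → F) (l : Fin t) => word a (Fin.append c d) (s l)) := by
  refine Finite.injective_iff_bijective.1 ?_
  intro c c' h
  refine vand_inj (ha.comp hs) fun i => ?_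
  have h1 := congrFun h i
  simp only [word] at h1
  rw [Fin.sum_univ_add, Fin.sum_univ_add] at h1
  simp only [Fin.append_left, Fin.append_right, Fin.val_castAdd] at h1
  exact add_right_cancel h1

lemma deg_leg_eq {t D : ℕ} {a : Fin (t + D) → F} (ha : Function.Injective a) (d : Fin D → F)
    {S : Finset (Fin (t + D) × F)} (hS : S.card = t) :
    deg (leg a d) S = if Set.InjOn Prod.fst (S : Set (Fin (t + D) × F)) then 1 else 0 := by
  rw [deg_leg]
  split_ifs with hinj
  · have e : S ≃ Fin t := S.equivFinOfCardEq hS
    have hs : Function.Injective (fun l : Fin t => (e.symm l).1.1) := by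
      intro l l' h
      have h1 := hinj (e.symm l).2 (e.symm l').2 h
      exact e.symm.injective (Subtype.ext h1)
    obtain ⟨c, hc⟩ := (part_bijective ha d hs).2 (fun l => (e.symm l).1.2)
    refine Finset.card_eq_one.2 ⟨c, ?_⟩
    have key : ∀ c' : Fin t → F, S ⊆ wblock (word a (Fin.append c' d)) ↔
        (fun l : Fin t => word a (Fin.append c' d) (e.symm l).1.1) = fun l => (e.symm l).1.2 := by
      intro c'
      constructor
      · intro h
        funext l
        exact mem_wblock.1 (h (e.symm l).2)
      · intro h p hp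
        rw [mem_wblock]
        have h1 := congrFun h (e ⟨p, hp⟩)
        simpa using h1
    ext c'
    rw [Finset.mem_filter, Finset.mem_singleton, key]
    constructor
    · rintro ⟨_, h⟩
      exact (part_bijective ha d hs).1 (h.trans hc.symm)
    · rintro rfl
      exact ⟨Finset.mem_univ _, hc⟩
  · refine Finset.card_eq_zero.2 (Finset.filter_eq_empty_iff.2 ?_)
    intro c _ h
    apply hinj
    intro p hp q hq hpq
    have h1 := mem_wblock.1 (h hp)
    have h2 := mem_wblock.1 (h hq)
    rw [hpq] at h1
    exact Prod.ext hpq (h1.symm.trans h2)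

/-- The cosets of the Reed-Solomon code form a trade with `|F|^D` legs of strength `t`. -/
lemma str_leg {t D : ℕ} {a : Fin (t + D) → F} (ha : Function.Injective a) :
    Str t (t + D) (leg (t := t) (D := D) a) := by
  have hblk : ∀ d : Fin D → F, ∀ B ∈ leg a d, B.card = t + D := by
    intro d B hB
    obtain ⟨c, _, rfl⟩ := Multiset.mem_map.1 hB
    exact wblock_card _
  refine ⟨?_, hblk, ?_, ?_⟩
  · intro d h
    have h1 := leg_card a d
    rw [h, Multiset.card_zero] at h1
    have h2 : 0 < Fintype.card F ^ t := pow_pos Fintype.card_pos t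
    omega
  · intro d d' hdd B hB hB'
    obtain ⟨c, _, rfl⟩ := Multiset.mem_map.1 hB
    obtain ⟨c', _, h⟩ := Multiset.mem_map.1 hB'
    have h1 := word_injective ha (wblock_injective h)
    apply hdd
    funext j
    have h2 := congrFun h1 (Fin.natAdd t j)
    rw [Fin.append_right, Fin.append_right] at h2
    exact h2.symm
  · intro d d' S hS
    refine bal_down (hblk d) (hblk d') (by omega) ?_ S hS
    intro S hS
    rw [deg_leg_eq ha d hS, deg_leg_eq ha d' hS]

end RS

/-- `q ^ t` is a volume for `q` prime, `q ≥ k`, `q ^ (k - t) ≥ N`. -/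
theorem pow_mem_volumes {N t k q : ℕ} (hq : q.Prime) (hkq : k ≤ q) (htk : t ≤ k)
    (hN : N ≤ q ^ (k - t)) :
    q ^ t ∈ volumes N t k ∧ ∃ f ≤ k * q, f ∈ foundationSizes N t k := by
  have : Fact q.Prime := ⟨hq⟩
  obtain ⟨D, rfl⟩ : ∃ D, k = t + D := ⟨k - t, by omega⟩
  rw [Nat.add_sub_cancel_left] at hN
  have ha : Function.Injective (fun i : Fin (t + D) => ((i : ℕ) : ZMod q)) := by
    intro i j hij
    have h1 : ((i : ℕ) : ZMod q) = ((j : ℕ) : ZMod q) := hij
    rw [ZMod.natCast_eq_natCast_iff'] at h1
    rw [Nat.mod_eq_of_lt (by omega), Nat.mod_eq_of_lt (by omega)] at h1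
    exact Fin.ext h1
  have hstr := str_leg (t := t) (D := D) ha
  obtain ⟨T', g, hT', hcard⟩ := hstr.toFin (N := N) (by
    rw [Fintype.card_fun, Fintype.card_fin, ZMod.card]; exact hN)
  constructor
  · refine ⟨_, T', hT'.legged, fun i => ?_⟩
    rw [hcard, leg_card, ZMod.card]
  · refine ⟨(foundation T').card, ?_, _, T', hT'.legged, rfl⟩
    have h1 := Finset.card_le_univ (foundation T')
    rw [Fintype.card_fin] at h1
    refine h1.trans (le_of_eq ?_)
    rw [Fintype.card_prod, Fintype.card_fin, ZMod.card]

end NLegged
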